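import Mathlib

/-!
Numerical parameters for the greedy process.
-/

namespace Pool.Agent.helper43.Rho

/-- the conditions on the parameters -/
def Params (n m ρ J I K0 : ℕ) : Prop :=
  (m + 1) * 2 ^ J < 2 * 3 ^ J ∧ 1 ≤ I ∧ m + 1 < 2 ^ (I + 1) ∧
    n < 2 ^ (K0 + 1) * (2 * ρ + 1) ∧ 1 ≤ ρ ∧ ρ ≤ m ∧
    4 * n + ρ * (ρ + 3) < (m - (K0 + 1) * (J + I)) * (m - (K0 + 1) * (J + I) + 3) ∧
    n < (2 * ρ + 3) * (m - ρ)

instance (n m ρ J I K0 : ℕ) : Decidable (Params n m ρ J I K0) := by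
  unfold Params; infer_instance

theorem Params.mono {n n' m ρ J I K0 : ℕ} (h : Params n m ρ J I K0) (hn : n' ≤ n) :
    Params n' m ρ J I K0 := by
  obtain ⟨h1, h2, h3, h4, h5, h6, h7, h8⟩ := h
  exact ⟨h1, h2, h3, by omega, h5, h6, by omega, by omega⟩

def Jt (m : ℕ) : ℕ :=
  if m < 76 then 9 else if m < 115 then 10 else if m < 172 then 11 else
    if m < 259 then 12 else if m < 389 then 13 else 14

def It (m : ℕ) : ℕ :=
  if m < 63 then 5 else if m < 127 then 6 else if m < 255 then 7 else if m < 511 then 8 else 9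

def ck (m K0 : ℕ) : Bool :=
  decide (Params (m * m / 25) m ((m * m / 25 / 2 ^ (K0 + 1) + 1) / 2) (Jt m) (It m) K0)

theorem small_all :
    ((List.range 461).all (fun i => (List.range 6).any (fun K0 => ck (51 + i) K0))) = true := by
  decide +kernel

theorem params_small {n m : ℕ} (h1 : 51 ≤ m) (h2 : m < 512) (h : 25 * n ≤ m ^ 2) :
    ∃ ρ J I K0, Params n m ρ J I K0 := by
  have h3 := List.all_eq_true.1 small_all (m - 51) (by rw [List.mem_range]; omega)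
  obtain ⟨K0, _, hck⟩ := List.any_eq_true.1 h3
  have e : 51 + (m - 51) = m := by omega
  rw [e] at hck
  have h4 := of_decide_eq_true hck
  refine ⟨_, _, _, _, h4.mono ?_⟩
  rw [Nat.le_div_iff_mul_le (by norm_num)]
  rw [pow_two] at h
  omega

theorem log_facts {m : ℕ} (hm : 1 ≤ m) (L : ℕ) (hL : L = Nat.log 2 m) (hL1 : 1 ≤ L) :
    (m + 1) * 2 ^ (2 * L) < 2 * 3 ^ (2 * L) ∧ m + 1 < 2 ^ (L + 1 + 1) ∧ m + 1 ≤ 2 ^ (L + 1) ∧
      2 ^ L ≤ m := by
  have h1 : 2 ^ L ≤ m := by rw [hL]; exact Nat.pow_log_le_self 2 (by omega)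
  have h2 : m < 2 ^ (L + 1) := by rw [hL]; exact Nat.lt_pow_succ_log_self (by norm_num) m
  refine ⟨?_, ?_, h2, h1⟩
  · calc (m + 1) * 2 ^ (2 * L) ≤ 2 ^ (L + 1) * 2 ^ (2 * L) := Nat.mul_le_mul_right _ h2
      _ = 2 * 8 ^ L := by
          rw [← pow_add, show L + 1 + 2 * L = 3 * L + 1 by ring, pow_succ, pow_mul]; norm_num
          ring
      _ < 2 * 9 ^ L := by
          have : (8 : ℕ) ^ L < 9 ^ L := Nat.pow_lt_pow_left (by norm_num) (by omega)
          omega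
      _ = 2 * 3 ^ (2 * L) := by rw [pow_mul]; norm_num
  · have : 2 ^ (L + 1 + 1) = 2 * 2 ^ (L + 1) := by ring
    have h3 : 1 < 2 ^ (L + 1) := Nat.one_lt_pow (by omega) (by norm_num)
    omega

theorem exp_poly1 (k : ℕ) : 2 * ((k + 9 - 2) * (3 * (k + 9) + 1)) ≤ 2 ^ (k + 9) := by
  induction k with
  | zero => norm_num
  | succ k ih =>
    have e1 : k + 9 - 2 = k + 7 := by omega
    have e2 : k + 1 + 9 - 2 = k + 8 := by omega
    rw [e1] at ih
    rw [e2]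
    have : 2 ^ (k + 1 + 9) = 2 * 2 ^ (k + 9) := by ring
    rw [this]
    nlinarith

theorem exp_poly2 (k : ℕ) : 100 * ((k + 14) * (3 * (k + 14) + 1)) ≤ 7 * 2 ^ (k + 14) := by
  induction k with
  | zero => norm_num
  | succ k ih =>
    have : 2 ^ (k + 1 + 14) = 2 * 2 ^ (k + 14) := by ring
    rw [this]
    nlinarith

theorem exp_poly3 (k : ℕ) : 10000 * ((k + 21) * (3 * (k + 20) + 1)) ≤ 19 * 2 ^ (k + 20) := by
  induction k with
  | zero => norm_num
  | succ k ih =>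
    have : 2 ^ (k + 1 + 20) = 2 * 2 ^ (k + 20) := by ring
    rw [this]
    nlinarith

theorem params_a {n m : ℕ} (hn : 1 ≤ n) (h1 : 512 ≤ m) (h : 25 * n ≤ m ^ 2) :
    ∃ ρ J I K0, Params n m ρ J I K0 := by
  obtain ⟨L, hL⟩ : ∃ L, L = Nat.log 2 m := ⟨_, rfl⟩
  have hL9 : 9 ≤ L := by
    rw [hL]
    apply Nat.le_log_of_pow_le (by norm_num)
    omega
  obtain ⟨f1, f2, f3, f4⟩ := log_facts (by omega : 1 ≤ m) L hL (by omega)
  obtain ⟨k, hk⟩ : ∃ k, L = k + 9 := ⟨L - 9, by omega⟩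
  have hE : 2 * ((L - 2) * (3 * L + 1)) ≤ m := by
    have := exp_poly1 k
    rw [← hk] at this
    exact this.trans f4
  refine ⟨m / 4, 2 * L, L + 1, L - 3, f1, by omega, f2, ?_, by omega, by omega, ?_, ?_⟩
  · have e : L - 3 + 1 = L - 2 := by omega
    rw [e]
    have e2 : 2 ^ (L + 1) = 8 * 2 ^ (L - 2) := by
      have : L + 1 = 3 + (L - 2) := by omega
      rw [this, pow_add]; norm_num
    have g1 : m + 1 ≤ 8 * 2 ^ (L - 2) := by omega
    have g2 : m ≤ 2 * (2 * (m / 4) + 1) + 1 := by omega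
    set P := 2 ^ (L - 2)
    set Q := 2 * (m / 4) + 1
    have g3 : (m + 1) * m ≤ (8 * P) * (2 * Q + 1) := Nat.mul_le_mul g1 g2
    have g4 : Q ≤ m := by omega
    have g5 : 1 ≤ Q := by omega
    have g6 : P ≤ P * Q := Nat.le_mul_of_pos_right _ (by omega)
    have g7 : (8 * P) * (2 * Q + 1) = 16 * (P * Q) + 8 * P := by ring
    have g8 : (m + 1) * m = m ^ 2 + m := by ring
    omega
  · have e : (L - 3 + 1) * (2 * L + (L + 1)) = (L - 2) * (3 * L + 1) := by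
      have e1 : L - 3 + 1 = L - 2 := by omega
      rw [e1]; ring
    rw [e]
    set E := (L - 2) * (3 * L + 1)
    set ρ := m / 4 with hρ
    have g1 : 4 * ρ ≤ m := by omega
    obtain ⟨d, hd⟩ : ∃ d, d = m - E := ⟨_, rfl⟩
    rw [← hd]
    have g2 : m ≤ 2 * d := by omega
    have g3 : m * m ≤ (2 * d) * (2 * d) := Nat.mul_le_mul g2 g2
    have g4 : (4 * ρ) * (4 * ρ) ≤ m * m := Nat.mul_le_mul g1 g1
    have g5 : m ^ 2 = m * m := by ring
    have g6 : 512 * m ≤ m * m := Nat.mul_le_mul_right _ h1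
    nlinarith
  · have g1 : m ≤ 4 * (m / 4) + 3 := by omega
    have g2 : 4 * (m / 4) ≤ m := by omega
    obtain ⟨d, hd⟩ : ∃ d, d = m - m / 4 := ⟨_, rfl⟩
    rw [← hd]
    have g3 : 3 * m ≤ 4 * d := by omega
    have g4 : m ≤ 2 * (2 * (m / 4) + 3) := by omega
    have g5 : m * (3 * m) ≤ (2 * (2 * (m / 4) + 3)) * (4 * d) := Nat.mul_le_mul g4 g3
    have g6 : m ^ 2 = m * m := by ring
    nlinarith

theorem params_b {n m : ℕ} (hn : 2 * m < n) (h1 : 10000 ≤ m) (h : 5 * n ≤ m ^ 2) :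
    ∃ ρ J I K0, Params n m ρ J I K0 := by
  obtain ⟨L, hL⟩ : ∃ L, L = Nat.log 2 m := ⟨_, rfl⟩
  have hL13 : 13 ≤ L := by
    rw [hL]
    apply Nat.le_log_of_pow_le (by norm_num)
    omega
  obtain ⟨f1, f2, f3, f4⟩ := log_facts (by omega : 1 ≤ m) L hL (by omega)
  have hE : 100 * (L * (3 * L + 1)) ≤ 7 * m := by
    rcases Nat.eq_or_lt_of_le hL13 with h13 | h13
    · rw [← h13]; omega
    · obtain ⟨k, hk⟩ : ∃ k, L = k + 14 := ⟨L - 14, by omega⟩
      have := exp_poly2 k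
      rw [← hk] at this
      omega
  refine ⟨m / 4, 2 * L, L + 1, L - 1, f1, by omega, f2, ?_, by omega, by omega, ?_, ?_⟩
  · have e : L - 1 + 1 = L := by omega
    rw [e]
    have g1 : m + 1 ≤ 2 * 2 ^ L := by
      have : 2 ^ (L + 1) = 2 * 2 ^ L := by ring
      omega
    have g2 : m ≤ 2 * (2 * (m / 4) + 1) + 1 := by omega
    set P := 2 ^ L
    set Q := 2 * (m / 4) + 1
    have g3 : (m + 1) * m ≤ (2 * P) * (2 * Q + 1) := Nat.mul_le_mul g1 g2
    have g7 : (2 * P) * (2 * Q + 1) = 4 * (P * Q) + 2 * P := by ring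
    have g8 : (m + 1) * m = m ^ 2 + m := by ring
    omega
  · have e : (L - 1 + 1) * (2 * L + (L + 1)) = L * (3 * L + 1) := by
      have e1 : L - 1 + 1 = L := by omega
      rw [e1]; ring
    rw [e]
    set E := L * (3 * L + 1)
    set ρ := m / 4 with hρ
    have g1 : 4 * ρ ≤ m := by omega
    obtain ⟨d, hd⟩ : ∃ d, d = m - E := ⟨_, rfl⟩
    rw [← hd]
    have g2 : 93 * m ≤ 100 * d := by omega
    have g3 : (93 * m) * (93 * m) ≤ (100 * d) * (100 * d) := Nat.mul_le_mul g2 g2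
    have g4 : (4 * ρ) * (4 * ρ) ≤ m * m := Nat.mul_le_mul g1 g1
    have g5 : m ^ 2 = m * m := by ring
    have g6 : 10000 * m ≤ m * m := Nat.mul_le_mul_right _ h1
    nlinarith
  · have g1 : m ≤ 4 * (m / 4) + 3 := by omega
    have g2 : 4 * (m / 4) ≤ m := by omega
    obtain ⟨d, hd⟩ : ∃ d, d = m - m / 4 := ⟨_, rfl⟩
    rw [← hd]
    have g3 : 3 * m ≤ 4 * d := by omega
    have g4 : m ≤ 2 * (2 * (m / 4) + 3) := by omega
    have g5 : m * (3 * m) ≤ (2 * (2 * (m / 4) + 3)) * (4 * d) := Nat.mul_le_mul g4 g3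
    have g6 : m ^ 2 = m * m := by ring
    nlinarith

theorem params_c {n m : ℕ} (hn : 2 ≤ n) (h1 : 2 ^ 20 ≤ m) (h : 41 * n ≤ 10 * m ^ 2) :
    ∃ ρ J I K0, Params n m ρ J I K0 := by
  have h1' : 1048576 ≤ m := by norm_num at h1; exact h1
  obtain ⟨L, hL⟩ : ∃ L, L = Nat.log 2 m := ⟨_, rfl⟩
  have hL20 : 20 ≤ L := by
    rw [hL]
    exact Nat.le_log_of_pow_le (by norm_num) h1
  obtain ⟨f1, f2, f3, f4⟩ := log_facts (by omega : 1 ≤ m) L hL (by omega)
  have hE : 10000 * ((L + 1) * (3 * L + 1)) ≤ 19 * m := by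
    obtain ⟨k, hk⟩ : ∃ k, L = k + 20 := ⟨L - 20, by omega⟩
    have := exp_poly3 k
    have e : k + 21 = L + 1 := by omega
    rw [e, ← hk] at this
    omega
  refine ⟨m / 7, 2 * L, L + 1, L, f1, by omega, f2, ?_, by omega, by omega, ?_, ?_⟩
  · have g2 : 2 * m ≤ 7 * (2 * (m / 7) + 1) + 5 := by omega
    set P := 2 ^ (L + 1)
    set Q := 2 * (m / 7) + 1
    have g3 : (m + 1) * (2 * m) ≤ P * (7 * Q + 5) := Nat.mul_le_mul f3 g2
    have g5 : 1 ≤ Q := by omega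
    have g6 : P ≤ P * Q := Nat.le_mul_of_pos_right _ (by omega)
    have g7 : P * (7 * Q + 5) = 7 * (P * Q) + 5 * P := by ring
    have g8 : (m + 1) * (2 * m) = 2 * m ^ 2 + 2 * m := by ring
    have g9 : P ≤ 2 * m := by
      have : 2 ^ (L + 1) = 2 * 2 ^ L := by ring
      omega
    have g10 : 1048576 * m ≤ m ^ 2 := by
      rw [pow_two]; exact Nat.mul_le_mul_right _ h1'
    omega
  · have e : (L + 1) * (2 * L + (L + 1)) = (L + 1) * (3 * L + 1) := by ring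
    rw [e]
    set E := (L + 1) * (3 * L + 1)
    set ρ := m / 7 with hρ
    have g1 : 7 * ρ ≤ m := by omega
    obtain ⟨d, hd⟩ : ∃ d, d = m - E := ⟨_, rfl⟩
    rw [← hd]
    have g2 : 9981 * m ≤ 10000 * d := by omega
    have g3 : (9981 * m) * (9981 * m) ≤ (10000 * d) * (10000 * d) := Nat.mul_le_mul g2 g2
    have g4 : (7 * ρ) * (7 * ρ) ≤ m * m := Nat.mul_le_mul g1 g1
    have g5 : m ^ 2 = m * m := by ring
    have g6 : 1048576 * m ≤ m * m := Nat.mul_le_mul_right _ h1'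
    nlinarith
  · have g1 : m ≤ 7 * (m / 7) + 6 := by omega
    have g2 : 7 * (m / 7) ≤ m := by omega
    obtain ⟨d, hd⟩ : ∃ d, d = m - m / 7 := ⟨_, rfl⟩
    rw [← hd]
    have g3 : 6 * m ≤ 7 * d := by omega
    have g4 : 2 * m ≤ 7 * (2 * (m / 7) + 3) := by omega
    have g5 : (2 * m) * (6 * m) ≤ (7 * (2 * (m / 7) + 3)) * (7 * d) := Nat.mul_le_mul g4 g3
    have g6 : m ^ 2 = m * m := by ring
    nlinarith

end Pool.Agent.helper43.Rho
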