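import Pool.Agent.helper43.Rho.Lower

/-!
The construction in `ℤ/n`.
-/

open Finset

set_option linter.unusedSectionVars false

namespace Pool.Agent.helper43.Rho

/-- The construction: `(h - 1) / 2` or fewer elements of the subgroup of order `h`, and `r`
elements of the coset of `1`. -/
theorem construction {d h k r : ℕ} (hd : 0 < d) (hk : 2 * k < h) (hr : r ≤ h)
    (hrd : r = 0 ∨ 3 ≤ d) :
    ∃ A : Finset (ZMod (d * h)), A.card = k + r ∧ (∀ a ∈ A, -a ∉ A) ∧
      (SigmaStar A).card ≤ h * (1 + r) := by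
  classical
  have hh : 0 < h := by omega
  have hn : 0 < d * h := Nat.mul_pos hd hh
  have _ : NeZero (d * h) := ⟨by omega⟩
  set n := d * h with hndef
  -- the natural numbers behind the set
  set N1 : Finset ℕ := (Finset.Icc 1 k).image (fun i => d * i) with hN1
  set N2 : Finset ℕ := (Finset.range r).image (fun i => d * i + 1) with hN2
  have mem1 : ∀ x, x ∈ N1 ↔ ∃ i, 1 ≤ i ∧ i ≤ k ∧ d * i = x := by
    intro x
    simp only [hN1, Finset.mem_image, Finset.mem_Icc]
    constructor
    · rintro ⟨i, ⟨h1, h2⟩, h3⟩; exact ⟨i, h1, h2, h3⟩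
    · rintro ⟨i, h1, h2, h3⟩; exact ⟨i, ⟨h1, h2⟩, h3⟩
  have mem2 : ∀ x, x ∈ N2 ↔ ∃ i, i < r ∧ d * i + 1 = x := by
    intro x
    simp only [hN2, Finset.mem_image, Finset.mem_range]
  have hdisj : Disjoint N1 N2 := by
    rw [Finset.disjoint_left]
    intro x h1 h2
    rw [mem1] at h1
    rw [mem2] at h2
    obtain ⟨i, _, _, rfl⟩ := h1
    obtain ⟨j, hj, hji⟩ := h2
    have h3 : d ∣ 1 := by
      have h4 : d ∣ d * j + 1 := hji ▸ Dvd.intro _ rfl
      exact (Nat.dvd_add_right (Dvd.intro _ rfl)).1 h4
    have : d = 1 := Nat.dvd_one.1 h3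
    omega
  have hc1 : N1.card = k := by
    rw [hN1, Finset.card_image_of_injective, Nat.card_Icc]
    · omega
    · intro a b hab
      exact Nat.eq_of_mul_eq_mul_left hd hab
  have hc2 : N2.card = r := by
    rw [hN2, Finset.card_image_of_injective, Finset.card_range]
    intro a b hab
    have : d * a = d * b := by
      have hab' : d * a + 1 = d * b + 1 := hab
      omega
    exact Nat.eq_of_mul_eq_mul_left hd this
  have hlt : ∀ x ∈ N1 ∪ N2, x < n := by
    intro x hx
    rw [Finset.mem_union, mem1, mem2] at hx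
    rcases hx with ⟨i, _, hi, rfl⟩ | ⟨i, hi, rfl⟩
    · exact Nat.mul_lt_mul_of_pos_left (by omega) hd
    · have h1 : d * (i + 1) ≤ d * h := Nat.mul_le_mul_left _ (by omega)
      have h2 : d * (i + 1) = d * i + d := by ring
      omega
  have hinj : Set.InjOn (fun x : ℕ => (x : ZMod n)) (N1 ∪ N2 : Finset ℕ) := by
    intro a ha b hb hab
    have hab' : (a : ZMod n) = (b : ZMod n) := hab
    rw [ZMod.natCast_eq_natCast_iff'] at hab'
    rwa [Nat.mod_eq_of_lt (hlt a ha), Nat.mod_eq_of_lt (hlt b hb)] at hab'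
  set A : Finset (ZMod n) := (N1 ∪ N2).image (fun x : ℕ => (x : ZMod n)) with hA
  refine ⟨A, ?_, ?_, ?_⟩
  · rw [hA, Finset.card_image_of_injOn hinj, Finset.card_union_of_disjoint hdisj, hc1, hc2]
  · intro a ha hna
    rw [hA, Finset.mem_image] at ha hna
    obtain ⟨x, hx, rfl⟩ := ha
    obtain ⟨y, hy, hxy⟩ := hna
    have h1 : ((x + y : ℕ) : ZMod n) = 0 := by
      push_cast
      rw [hxy]
      ring
    rw [ZMod.natCast_eq_zero_iff] at h1
    have hdn : d ∣ x + y := (Dvd.intro _ rfl : d ∣ d * h).trans h1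
    rw [Finset.mem_union, mem1, mem2] at hx hy
    rcases hx with ⟨i, hi1, hi, rfl⟩ | ⟨i, hi, rfl⟩
    · rcases hy with ⟨j, hj1, hj, rfl⟩ | ⟨j, hj, rfl⟩
      · rw [← mul_add, hndef] at h1
        have h2 : h ∣ i + j := Nat.dvd_of_mul_dvd_mul_left hd h1
        have h3 := Nat.le_of_dvd (by omega) h2
        omega
      · have h2 : d * i + (d * j + 1) = d * (i + j) + 1 := by ring
        rw [h2] at hdn
        have h3 : d ∣ 1 := (Nat.dvd_add_right (Dvd.intro _ rfl)).1 hdn
        have : d = 1 := Nat.dvd_one.1 h3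
        omega
    · rcases hy with ⟨j, hj1, hj, rfl⟩ | ⟨j, hj, rfl⟩
      · have h2 : d * i + 1 + d * j = d * (i + j) + 1 := by ring
        rw [h2] at hdn
        have h3 : d ∣ 1 := (Nat.dvd_add_right (Dvd.intro _ rfl)).1 hdn
        have : d = 1 := Nat.dvd_one.1 h3
        omega
      · have h2 : d * i + 1 + (d * j + 1) = d * (i + j) + 2 := by ring
        rw [h2] at hdn
        have h3 : d ∣ 2 := (Nat.dvd_add_right (Dvd.intro _ rfl)).1 hdn
        have := Nat.le_of_dvd (by norm_num) h3
        omega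
  · -- counting the sums
    set A2 : Finset (ZMod n) := N2.image (fun x : ℕ => (x : ZMod n)) with hA2
    have hrep : ∀ b : ZMod n, ∃ i : ℕ, b ∈ A →
        b = ((d * i + (if b ∈ A2 then 1 else 0) : ℕ) : ZMod n) := by
      intro b
      by_cases hb : b ∈ A
      · by_cases hb2 : b ∈ A2
        · have hb2' := hb2
          rw [hA2, Finset.mem_image] at hb2'
          obtain ⟨x, hx, hxb⟩ := hb2'
          rw [mem2] at hx
          obtain ⟨i, _, hi⟩ := hx
          refine ⟨i, fun _ => ?_⟩
          rw [if_pos hb2, hi, hxb]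
        · have hb' := hb
          rw [hA, Finset.mem_image] at hb'
          obtain ⟨x, hx, hxb⟩ := hb'
          rw [Finset.mem_union] at hx
          rcases hx with hx | hx
          · rw [mem1] at hx
            obtain ⟨i, _, _, hi⟩ := hx
            refine ⟨i, fun _ => ?_⟩
            rw [if_neg hb2, add_zero, hi, hxb]
          · exfalso
            apply hb2
            rw [hA2, Finset.mem_image]
            exact ⟨x, hx, hxb⟩
      · exact ⟨0, fun h => absurd h hb⟩
    choose f hf using hrep
    have hsub : SigmaStar A ⊆ (Finset.range h ×ˢ Finset.range (r + 1)).image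
        (fun p : ℕ × ℕ => ((d * p.1 + p.2 : ℕ) : ZMod n)) := by
      intro x hx
      rw [mem_SigmaStar] at hx
      obtain ⟨B, hB, _, rfl⟩ := hx
      rw [Finset.mem_image]
      refine ⟨((∑ b ∈ B, f b) % h, ∑ b ∈ B, if b ∈ A2 then 1 else 0), ?_, ?_⟩
      · rw [Finset.mem_product, Finset.mem_range, Finset.mem_range]
        refine ⟨Nat.mod_lt _ hh, ?_⟩
        have h1 : ∑ b ∈ B, (if b ∈ A2 then 1 else 0) = (B.filter (fun b => b ∈ A2)).card := by
          rw [Finset.card_filter]
        have h2 : (B.filter (fun b => b ∈ A2)).card ≤ A2.card := by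
          apply Finset.card_le_card
          intro b hb
          exact (Finset.mem_filter.1 hb).2
        have h3 : A2.card ≤ r := by
          rw [hA2, ← hc2]
          exact Finset.card_image_le
        show ∑ b ∈ B, (if b ∈ A2 then 1 else 0) < r + 1
        omega
      · show ((d * ((∑ b ∈ B, f b) % h) + ∑ b ∈ B, (if b ∈ A2 then 1 else 0) : ℕ) : ZMod n) = _
        have h1 : ∑ b ∈ B, b = ∑ b ∈ B, ((d * f b + (if b ∈ A2 then 1 else 0) : ℕ) : ZMod n) :=
          Finset.sum_congr rfl (fun b hb => hf b (hB hb))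
        rw [h1, ← Nat.cast_sum, Finset.sum_add_distrib, ← Finset.mul_sum,
          ZMod.natCast_eq_natCast_iff]
        apply Nat.ModEq.add_right
        have hmod : ∀ s : ℕ, d * (s % h) ≡ d * s [MOD d * h] :=
          fun s => Nat.ModEq.mul_left' d (Nat.mod_modEq _ _)
        exact hmod _
    refine (Finset.card_le_card hsub).trans (Finset.card_image_le.trans ?_)
    rw [Finset.card_product, Finset.card_range, Finset.card_range]
    apply le_of_eq
    ring

/-- For every divisor `h > m` of `n` the value `h (1 + max (0, m - (h-1)/2))` is an upper bound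
for the minimum. -/
theorem upper {n m h : ℕ} (hm : 2 * m < n) (hh : h ∣ n) (hmh : m < h) :
    ∃ A : Finset (ZMod n), A.card = m ∧ (∀ a ∈ A, -a ∉ A) ∧
      (SigmaStar A).card ≤ h * (1 + (m - (h - 1) / 2)) := by
  obtain ⟨d, rfl⟩ := hh
  have hn : 0 < h * d := by omega
  have hd : 0 < d := by
    rcases Nat.eq_zero_or_pos d with h0 | h0
    · subst h0; omega
    · exact h0
  by_cases h2 : 2 * m < h
  · rw [mul_comm h d]
    obtain ⟨A, h3, h4, h5⟩ := construction (d := d) (h := h) (k := m) (r := 0) hd h2 (by omega)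
      (Or.inl rfl)
    refine ⟨A, by omega, h4, h5.trans ?_⟩
    apply Nat.mul_le_mul_left
    omega
  · by_cases hv : h * d ≤ h * (1 + (m - (h - 1) / 2))
    · -- the interval `{1, ..., m}`
      have := construction (d := 1) (h := h * d) (k := m) (r := 0) one_pos hm
        (by omega) (Or.inl rfl)
      rw [one_mul] at this
      obtain ⟨A, h3, h4, h5⟩ := this
      exact ⟨A, by omega, h4, h5.trans (by omega)⟩
    · have hd3 : 3 ≤ d := by
        by_contra hd3
        apply hv
        apply Nat.mul_le_mul_left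
        omega
      rw [mul_comm h d]
      obtain ⟨A, h3, h4, h5⟩ := construction (d := d) (h := h) (k := (h - 1) / 2)
        (r := m - (h - 1) / 2) hd (by omega) (by omega) (Or.inr hd3)
      exact ⟨A, by omega, h4, h5⟩

end Pool.Agent.helper43.Rho
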