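import Pool.Agent.helper43.Rho.Struct

/-!
Stabilizers, and counting the cosets met by the subset sums.
-/

open Finset

set_option linter.unusedSectionVars false

namespace Pool.Agent.helper43.Rho

variable {G : Type*} [AddCommGroup G] [DecidableEq G]

/-- sums of the nonempty subsets -/
def SigmaStar (A : Finset G) : Finset G :=
  (A.powerset.filter (fun B => B.Nonempty)).image (fun B => ∑ b ∈ B, b)

theorem mem_SigmaStar {A : Finset G} {x : G} :
    x ∈ SigmaStar A ↔ ∃ B ⊆ A, B.Nonempty ∧ ∑ b ∈ B, b = x := by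
  simp only [SigmaStar, Finset.mem_image, Finset.mem_filter, Finset.mem_powerset]
  constructor
  · rintro ⟨B, ⟨h1, h2⟩, h3⟩; exact ⟨B, h1, h2, h3⟩
  · rintro ⟨B, h1, h2, h3⟩; exact ⟨B, ⟨h1, h2⟩, h3⟩

/-- a subset sum of `A` splits along any subset `C` -/
theorem SS_split {A C : Finset G} {x : G} (hx : x ∈ SS A) :
    ∃ c ∈ SS C, ∃ r, x = c + r ∧ ∀ d ∈ SS C, C ⊆ A → d + r ∈ SS A := by
  rw [mem_SS] at hx
  obtain ⟨T, hT, rfl⟩ := hx
  refine ⟨∑ b ∈ T ∩ C, b, mem_SS.2 ⟨T ∩ C, Finset.inter_subset_right, rfl⟩,
    ∑ b ∈ T \ C, b, ?_, ?_⟩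
  · rw [add_comm, ← Finset.sum_union]
    · congr 1
      exact (Finset.sdiff_union_inter T C).symm
    · exact Finset.disjoint_sdiff_inter T C
  · intro d hd hCA
    rw [mem_SS] at hd ⊢
    obtain ⟨U, hU, rfl⟩ := hd
    refine ⟨U ∪ (T \ C), Finset.union_subset (hU.trans hCA) (Finset.sdiff_subset.trans hT), ?_⟩
    apply Finset.sum_union
    exact Finset.disjoint_of_subset_left hU Finset.disjoint_sdiff

/-- the stabilizer of a finite set -/
def stab (S : Finset G) : AddSubgroup G where
  carrier := {x | ∀ s, s + x ∈ S ↔ s ∈ S}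
  zero_mem' := by intro s; simp
  add_mem' := by
    intro a b ha hb s
    rw [← add_assoc, hb, ha]
  neg_mem' := by
    intro a ha s
    have := ha (s + -a)
    rw [← this]
    simp

theorem mem_stab_iff {S : Finset G} {x : G} : x ∈ stab S ↔ ∀ s, s + x ∈ S ↔ s ∈ S := Iff.rfl

theorem mem_stab_of {S : Finset G} {x : G} (h : ∀ s ∈ S, s + x ∈ S) : x ∈ stab S := by
  have himg : S.image (fun z => z + x) = S := by
    apply Finset.eq_of_subset_of_card_le
    · intro z hz
      rw [Finset.mem_image] at hz
      obtain ⟨u, hu, rfl⟩ := hz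
      exact h u hu
    · rw [Finset.card_image_of_injective _ (add_left_injective x)]
  rw [mem_stab_iff]
  intro s
  constructor
  · intro hs
    rw [← himg, Finset.mem_image] at hs
    obtain ⟨u, hu, hus⟩ := hs
    have : u = s := by simpa using hus
    exact this ▸ hu
  · exact h s

/-- each element outside the stabilizer of `SS A` adds a coset -/
theorem coset_count {A T : Finset G} (hT : T ⊆ A) (hTK : ∀ x ∈ T, x ∉ stab (SS A))
    [DecidableEq (G ⧸ stab (SS A))] :
    T.card + 1 ≤ ((SS T).image (fun x => (QuotientAddGroup.mk x : G ⧸ stab (SS A)))).card := by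
  induction T using Finset.induction_on with
  | empty => rw [SS_empty]; simp
  | insert x T hx ih =>
    have hTA : T ⊆ A := (Finset.subset_insert _ _).trans hT
    have ih' := ih hTA (fun y hy => hTK y (Finset.mem_insert_of_mem hy))
    rw [Finset.card_insert_of_notMem hx]
    have hsub : (SS T).image (fun x => (QuotientAddGroup.mk x : G ⧸ stab (SS A))) ⊆
        (SS (insert x T)).image (fun x => (QuotientAddGroup.mk x : G ⧸ stab (SS A))) :=
      Finset.image_subset_image (SS_mono (Finset.subset_insert _ _))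
    have hne : (SS T).image (fun x => (QuotientAddGroup.mk x : G ⧸ stab (SS A))) ≠
        (SS (insert x T)).image (fun x => (QuotientAddGroup.mk x : G ⧸ stab (SS A))) := by
      intro heq
      apply hTK x (Finset.mem_insert_self _ _)
      apply mem_stab_of
      intro s hs
      obtain ⟨c, hc, r, rfl, hr⟩ := SS_split (C := T) hs
      have h1 : (QuotientAddGroup.mk (c + x) : G ⧸ stab (SS A)) ∈
          (SS T).image (fun x => (QuotientAddGroup.mk x : G ⧸ stab (SS A))) := by
        rw [heq]
        apply Finset.mem_image_of_mem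
        rw [SS_insert hx, Finset.mem_union, Finset.mem_image]
        exact Or.inr ⟨c, hc, rfl⟩
      rw [Finset.mem_image] at h1
      obtain ⟨d, hd, hdc⟩ := h1
      have h2 : -d + (c + x) ∈ stab (SS A) := QuotientAddGroup.eq.1 hdc
      have h3 := hr d hd hTA
      have h4 := (mem_stab_iff.1 h2 (d + r)).2 h3
      have h5 : d + r + (-d + (c + x)) = c + r + x := by abel
      rwa [h5] at h4
    have h := Finset.card_lt_card (lt_of_le_of_ne hsub hne)
    omega

/-- a set that is periodic modulo `K` has at least `|K|` elements for each coset it meets -/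
theorem card_periodic [Finite G] {K : AddSubgroup G} {S : Finset G}
    (hS : ∀ s ∈ S, ∀ k ∈ K, s + k ∈ S) [DecidableEq (G ⧸ K)] :
    Nat.card K * (S.image (fun x => (QuotientAddGroup.mk x : G ⧸ K))).card ≤ S.card := by
  classical
  have _ := Fintype.ofFinite G
  have _ := Fintype.ofFinite K
  rw [Nat.card_eq_fintype_card, ← Finset.card_univ, ← Finset.card_product]
  apply Finset.card_le_card_of_injOn (fun p => p.2.out + (p.1 : G))
  · intro p hp
    rw [Finset.mem_coe, Finset.mem_product, Finset.mem_image] at hp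
    obtain ⟨_, s, hs, hsp⟩ := hp
    rw [Finset.mem_coe]
    apply hS _ _ _ p.1.2
    have h1 : (QuotientAddGroup.mk s : G ⧸ K) = QuotientAddGroup.mk (p.2.out) := by
      rw [hsp]; exact (QuotientAddGroup.out_eq' _).symm
    have h2 : -s + p.2.out ∈ K := QuotientAddGroup.eq.1 h1
    have h3 := hS s hs _ h2
    simpa using h3
  · intro p _ q _ hpq
    have hpq' : p.2.out + (p.1 : G) = q.2.out + (q.1 : G) := hpq
    have h1 : ∀ z : K × (G ⧸ K), (QuotientAddGroup.mk (z.2.out + (z.1 : G)) : G ⧸ K) = z.2 := by
      intro z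
      have : (QuotientAddGroup.mk (z.2.out + (z.1 : G)) : G ⧸ K) =
          QuotientAddGroup.mk (z.2.out) := by
        apply Eq.symm
        apply QuotientAddGroup.eq.2
        simp
      rw [this]; exact QuotientAddGroup.out_eq' _
    have h2 : p.2 = q.2 := by rw [← h1 p, ← h1 q, hpq']
    have h3 : (p.1 : G) = (q.1 : G) := by
      rw [h2] at hpq'
      exact add_left_cancel hpq'
    exact Prod.ext (Subtype.ext h3) h2

end Pool.Agent.helper43.Rho
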