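import Pool.Agent.helper43.Rho.Phase

/-!
The elements of a set inside and outside a subgroup.
-/

open Finset

set_option linter.unusedSectionVars false

namespace Pool.Agent.helper43.Rho

variable {G : Type*} [AddCommGroup G] [DecidableEq G]

open Classical in
/-- the elements of `A` in the subgroup -/
noncomputable def ins (A : Finset G) (H : AddSubgroup G) : Finset G := A.filter (fun a => a ∈ H)

open Classical in
/-- the elements of `A` outside the subgroup -/
noncomputable def outs (A : Finset G) (H : AddSubgroup G) : Finset G := A.filter (fun a => a ∉ H)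

theorem mem_ins {A : Finset G} {H : AddSubgroup G} {a : G} : a ∈ ins A H ↔ a ∈ A ∧ a ∈ H := by
  simp [ins]

theorem mem_outs {A : Finset G} {H : AddSubgroup G} {a : G} : a ∈ outs A H ↔ a ∈ A ∧ a ∉ H := by
  simp [outs]

theorem card_ins_add_outs (A : Finset G) (H : AddSubgroup G) :
    (ins A H).card + (outs A H).card = A.card := by
  classical
  unfold ins outs
  exact Finset.card_filter_add_card_filter_not (s := A) (fun a => a ∈ H)

theorem asym_card_subgroup [Finite G] {A : Finset G} (hA : Asym A) (H : AddSubgroup G)
    (h : ∀ a ∈ A, a ∈ H) : 2 * A.card + 1 ≤ Nat.card H := by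
  rw [← card_CC hA]
  have h1 : Nat.card (CC A : Set G) ≤ Nat.card H := by
    apply Nat.card_mono (Set.toFinite _)
    intro x hx
    have hx' : x ∈ CC A := hx
    unfold CC at hx'
    rw [Finset.mem_insert, Finset.mem_union, Finset.mem_image] at hx'
    rcases hx' with rfl | hx | ⟨y, hy, rfl⟩
    · exact H.zero_mem
    · exact h _ hx
    · exact H.neg_mem (h _ hy)
  simpa using h1

theorem ins_asym {A : Finset G} (hA : Asym A) (H : AddSubgroup G) : Asym (ins A H) :=
  hA.subset (by intro a ha; exact (mem_ins.1 ha).1)

theorem two_card_ins [Finite G] {A : Finset G} (hA : Asym A) (H : AddSubgroup G) :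
    2 * (ins A H).card + 1 ≤ Nat.card H :=
  asym_card_subgroup (ins_asym hA H) H (fun _ ha => (mem_ins.1 ha).2)

end Pool.Agent.helper43.Rho
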