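import Pool.Agent.helper43.Rho.Grow

/-!
The isoperimetric inequality `2 |X + C| ≥ 2 |X| + |C|` for a symmetric generating set `C`.
-/

open Finset

set_option linter.unusedSectionVars false

namespace Pool.Agent.helper43.Rho

variable {G : Type*} [AddCommGroup G] [DecidableEq G]

/-- sumset -/
def sumS (X C : Finset G) : Finset G := (X ×ˢ C).image (fun p => p.1 + p.2)

theorem mem_sumS {X C : Finset G} {z : G} : z ∈ sumS X C ↔ ∃ x ∈ X, ∃ c ∈ C, x + c = z := by
  simp only [sumS, Finset.mem_image, Finset.mem_product, Prod.exists]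
  constructor
  · rintro ⟨a, c, ⟨ha, hc⟩, rfl⟩
    exact ⟨a, ha, c, hc, rfl⟩
  · rintro ⟨a, ha, c, hc, rfl⟩
    exact ⟨a, c, ⟨ha, hc⟩, rfl⟩

theorem sumS_mono {X Y C : Finset G} (h : X ⊆ Y) : sumS X C ⊆ sumS Y C := by
  intro z hz
  rw [mem_sumS] at hz ⊢
  obtain ⟨x, hx, c, hc, rfl⟩ := hz
  exact ⟨x, h hx, c, hc, rfl⟩

theorem subset_sumS {X C : Finset G} (h0 : (0 : G) ∈ C) : X ⊆ sumS X C := by
  intro x hx
  rw [mem_sumS]
  exact ⟨x, hx, 0, h0, by simp⟩

theorem sumS_union (X Y C : Finset G) : sumS (X ∪ Y) C = sumS X C ∪ sumS Y C := by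
  ext z
  rw [Finset.mem_union, mem_sumS, mem_sumS, mem_sumS]
  constructor
  · rintro ⟨x, hx, c, hc, rfl⟩
    rw [Finset.mem_union] at hx
    rcases hx with hx | hx
    · exact Or.inl ⟨x, hx, c, hc, rfl⟩
    · exact Or.inr ⟨x, hx, c, hc, rfl⟩
  · rintro (⟨x, hx, c, hc, rfl⟩ | ⟨x, hx, c, hc, rfl⟩)
    · exact ⟨x, Finset.mem_union_left _ hx, c, hc, rfl⟩
    · exact ⟨x, Finset.mem_union_right _ hx, c, hc, rfl⟩

/-- translate -/
def tr (X : Finset G) (z : G) : Finset G := X.image (fun x => x + z)

theorem mem_tr {X : Finset G} {z y : G} : y ∈ tr X z ↔ y - z ∈ X := by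
  simp only [tr, Finset.mem_image]
  constructor
  · rintro ⟨x, hx, rfl⟩; simpa using hx
  · intro h; exact ⟨y - z, h, by simp⟩

theorem card_tr (X : Finset G) (z : G) : (tr X z).card = X.card :=
  Finset.card_image_of_injective _ (add_left_injective z)

theorem sumS_tr (X C : Finset G) (z : G) : sumS (tr X z) C = tr (sumS X C) z := by
  ext y
  rw [mem_tr, mem_sumS, mem_sumS]
  constructor
  · rintro ⟨x, hx, c, hc, rfl⟩
    rw [mem_tr] at hx
    exact ⟨x - z, hx, c, hc, by abel⟩
  · rintro ⟨x, hx, c, hc, h⟩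
    refine ⟨x + z, by rw [mem_tr]; simpa using hx, c, hc, ?_⟩
    have : y = x + c + z := by rw [h]; abel
    rw [this]; abel

/-- The isoperimetric inequality in a finite set `Hf` closed under addition of elements
of the symmetric set `C`, with `C` generating. -/
theorem isoper {Hf C : Finset G}
    (hH : ∀ x ∈ Hf, ∀ y ∈ Hf, x + y ∈ Hf) (hHn : ∀ x ∈ Hf, -x ∈ Hf)
    (hCH : C ⊆ Hf) (h0 : (0 : G) ∈ C) (hneg : ∀ c ∈ C, -c ∈ C)
    (hgen : ∀ X : Finset G, X ⊆ Hf → X.Nonempty → sumS X C ⊆ X → X = Hf)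
    {Y : Finset G} (hY : Y ⊆ Hf) (hYne : Y.Nonempty) (hYC : (sumS Y C).card < Hf.card) :
    2 * Y.card + C.card ≤ 2 * (sumS Y C).card := by
  classical
  have hsub : ∀ X : Finset G, X ⊆ Hf → sumS X C ⊆ Hf := by
    intro X hX z hz
    rw [mem_sumS] at hz
    obtain ⟨x, hx, c, hc, rfl⟩ := hz
    exact hH _ (hX hx) _ (hCH hc)
  have hle : ∀ X : Finset G, X.card ≤ (sumS X C).card :=
    fun X => Finset.card_le_card (subset_sumS h0)
  set P : Finset (Finset G) :=
    Hf.powerset.filter (fun X => X.Nonempty ∧ (sumS X C).card < Hf.card) with hP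
  have memP : ∀ X, X ∈ P ↔ X ⊆ Hf ∧ X.Nonempty ∧ (sumS X C).card < Hf.card := by
    intro X; simp [hP, Finset.mem_filter, Finset.mem_powerset]
  have hYP : Y ∈ P := (memP Y).2 ⟨hY, hYne, hYC⟩
  obtain ⟨X1, hX1, hmin1⟩ := Finset.exists_min_image P (fun X => (sumS X C).card - X.card) ⟨Y, hYP⟩
  set κ := (sumS X1 C).card - X1.card with hκ
  have hκle : ∀ X ∈ P, X.card + κ ≤ (sumS X C).card := by
    intro X hX
    have h1 := hmin1 X hX
    have h2 := hle X
    have h3 : κ ≤ (sumS X C).card - X.card := h1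
    omega
  obtain ⟨X0, hX0, hmin0⟩ := Finset.exists_min_image
    (P.filter (fun X => (sumS X C).card = X.card + κ)) (fun X => X.card) ⟨X1, by
      rw [Finset.mem_filter]
      refine ⟨hX1, ?_⟩
      have := hle X1
      omega⟩
  rw [Finset.mem_filter] at hX0
  obtain ⟨hX0P, hX0κ⟩ := hX0
  have hmin : ∀ X ∈ P, (sumS X C).card = X.card + κ → X0.card ≤ X.card := by
    intro X hX hXκ
    exact hmin0 X (by rw [Finset.mem_filter]; exact ⟨hX, hXκ⟩)
  -- size bound through the dual set
  have hdual : 2 * X0.card + κ ≤ Hf.card := by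
    have hX0' := (memP X0).1 hX0P
    set D := Hf \ sumS X0 C with hD
    have hDc : D.card = Hf.card - (sumS X0 C).card := Finset.card_sdiff_of_subset (hsub X0 hX0'.1)
    have hDne : D.Nonempty := by rw [← Finset.card_pos]; omega
    have hDX : sumS D C ⊆ Hf \ X0 := by
      intro z hz
      rw [mem_sumS] at hz
      obtain ⟨d, hd, c, hc, rfl⟩ := hz
      rw [hD, Finset.mem_sdiff] at hd
      rw [Finset.mem_sdiff]
      refine ⟨hH _ hd.1 _ (hCH hc), fun h => hd.2 ?_⟩
      rw [mem_sumS]
      exact ⟨d + c, h, -c, hneg c hc, by abel⟩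
    have hDX' : (sumS D C).card ≤ Hf.card - X0.card := by
      rw [← Finset.card_sdiff_of_subset hX0'.1]
      exact Finset.card_le_card hDX
    have hX0pos : 0 < X0.card := hX0'.2.1.card_pos
    have hX0le : X0.card ≤ Hf.card := Finset.card_le_card hX0'.1
    have hDP : D ∈ P := (memP D).2 ⟨Finset.sdiff_subset, hDne, by omega⟩
    have h1 := hκle D hDP
    have h2 := hmin D hDP (by omega)
    omega
  -- intersecting minimal sets coincide
  have hinter : ∀ X Z : Finset G, X ∈ P → Z ∈ P → (sumS X C).card = X.card + κ →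
      (sumS Z C).card = Z.card + κ → X.card = X0.card → Z.card = X0.card →
      (X ∩ Z).Nonempty → X = Z := by
    intro X Z hX hZ hXκ hZκ hXc hZc hne
    have hX' := (memP X).1 hX
    have hZ' := (memP Z).1 hZ
    have hWsub : sumS (X ∩ Z) C ⊆ sumS X C ∩ sumS Z C :=
      Finset.subset_inter (sumS_mono Finset.inter_subset_left)
        (sumS_mono Finset.inter_subset_right)
    have hWc := Finset.card_le_card hWsub
    have hWX : (sumS (X ∩ Z) C).card ≤ (sumS X C).card :=
      Finset.card_le_card (sumS_mono Finset.inter_subset_left)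
    have hWP : X ∩ Z ∈ P :=
      (memP _).2 ⟨Finset.inter_subset_left.trans hX'.1, hne, by omega⟩
    have hW := hκle _ hWP
    have hcu := Finset.card_union_add_card_inter (sumS X C) (sumS Z C)
    rw [← sumS_union] at hcu
    have hcu2 := Finset.card_union_add_card_inter X Z
    have hWpos : 0 < (X ∩ Z).card := hne.card_pos
    have hVP : X ∪ Z ∈ P := by
      refine (memP _).2 ⟨Finset.union_subset hX'.1 hZ'.1, hX'.2.1.mono Finset.subset_union_left, ?_⟩
      omega
    have hV := hκle _ hVP
    have h1 := hmin _ hWP (by omega)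
    have e1 : X ∩ Z = X := Finset.eq_of_subset_of_card_le Finset.inter_subset_left (by omega)
    have e2 : X ∩ Z = Z := Finset.eq_of_subset_of_card_le Finset.inter_subset_right (by omega)
    rw [← e1]; exact e2
  -- translate so that `0` belongs to the minimal set
  have htrP : ∀ X ∈ P, ∀ z ∈ Hf, tr X z ∈ P := by
    intro X hX z hz
    have hX' := (memP X).1 hX
    refine (memP _).2 ⟨?_, ?_, ?_⟩
    · intro y hy
      rw [mem_tr] at hy
      have := hH _ (hX'.1 hy) _ hz
      simpa using this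
    · rw [← Finset.card_pos, card_tr]; exact hX'.2.1.card_pos
    · rw [sumS_tr, card_tr]; exact hX'.2.2
  have hX0' := (memP X0).1 hX0P
  obtain ⟨x0, hx0⟩ := hX0'.2.1
  set X := tr X0 (-x0) with hX
  have hXP : X ∈ P := htrP X0 hX0P _ (hHn _ (hX0'.1 hx0))
  have hX' := (memP X).1 hXP
  have hXc : X.card = X0.card := card_tr _ _
  have hXκ : (sumS X C).card = X.card + κ := by
    rw [hX, sumS_tr, card_tr, card_tr]; exact hX0κ
  have h0X : (0 : G) ∈ X := by rw [hX, mem_tr]; simpa using hx0
  have hsubX : ∀ x ∈ X, ∀ y ∈ X, y - x ∈ X := by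
    intro x hx y hy
    have h1 : tr X (-x) ∈ P := htrP X hXP _ (hHn _ (hX'.1 hx))
    have h2 : (sumS (tr X (-x)) C).card = (tr X (-x)).card + κ := by
      rw [sumS_tr, card_tr, card_tr]; exact hXκ
    have h3 := hinter (tr X (-x)) X h1 hXP h2 hXκ (by rw [card_tr]; exact hXc) hXc
      ⟨0, by rw [Finset.mem_inter, mem_tr]; exact ⟨by simpa using hx, h0X⟩⟩
    rw [← h3, mem_tr]
    simpa using hy
  have hnotsub : ¬ sumS X C ⊆ X := by
    intro h
    have h1 := hgen X hX'.1 hX'.2.1 h
    have h2 := Finset.card_le_card (subset_sumS (X := X) h0)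
    have h3 := hX'.2.2
    rw [h1] at h2 h3
    omega
  rw [Finset.not_subset] at hnotsub
  obtain ⟨z, hz, hzX⟩ := hnotsub
  rw [mem_sumS] at hz
  obtain ⟨x, hx, c, hc, rfl⟩ := hz
  have hcX : c ∉ X := by
    intro h
    apply hzX
    have h1 : -c ∈ X := by
      have := hsubX c h 0 h0X
      simpa using this
    have h2 := hsubX (-c) h1 x hx
    simpa using h2
  have hdisj : Disjoint X (tr X c) := by
    rw [Finset.disjoint_left]
    intro y hy hy'
    rw [mem_tr] at hy'
    apply hcX
    have := hsubX _ hy' y hy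
    simpa using this
  have h2X : 2 * X.card ≤ (sumS X C).card := by
    have h1 : X ∪ tr X c ⊆ sumS X C := by
      apply Finset.union_subset (subset_sumS h0)
      intro y hy
      rw [mem_tr] at hy
      rw [mem_sumS]
      exact ⟨y - c, hy, c, hc, by abel⟩
    have h2 := Finset.card_le_card h1
    rw [Finset.card_union_of_disjoint hdisj, card_tr X c] at h2
    omega
  have hCX : C.card ≤ (sumS X C).card := by
    apply Finset.card_le_card
    intro y hy
    rw [mem_sumS]
    exact ⟨0, h0X, y, hy, by simp⟩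
  have hfin := hκle Y hYP
  omega

theorem DD_succ_eq (R : Finset G) (k : ℕ) : DD R (k + 1) = sumS (DD R k) (CC R) := rfl

theorem zero_mem_DD (R : Finset G) (k : ℕ) : (0 : G) ∈ DD R k := by
  induction k with
  | zero => simp [DD]
  | succ k ih => exact DD_mono_succ R k ih

/-- growth of the iterated sumsets: `2 |DD k| ≥ (k+1) |C|` as long as `DD k` is not everything -/
theorem DD_growth2 {R Hf : Finset G} {H : AddSubgroup G} (hHf : ∀ x, x ∈ Hf ↔ x ∈ H)
    (hcl : AddSubgroup.closure (R : Set G) = H) :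
    ∀ k, (DD R (k + 1)).card < Hf.card → (k + 2) * (CC R).card ≤ 2 * (DD R (k + 1)).card := by
  have hCH : CC R ⊆ Hf := by
    intro c hc
    rw [hHf]
    unfold CC at hc
    rw [Finset.mem_insert, Finset.mem_union, Finset.mem_image] at hc
    rcases hc with rfl | hx | ⟨y, hy, rfl⟩
    · exact H.zero_mem
    · rw [← hcl]; exact AddSubgroup.subset_closure hx
    · apply H.neg_mem; rw [← hcl]; exact AddSubgroup.subset_closure hy
  have hgen : ∀ X : Finset G, X ⊆ Hf → X.Nonempty → sumS X (CC R) ⊆ X → X = Hf := by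
    intro X hX hXne hXC
    apply Finset.Subset.antisymm hX
    obtain ⟨x0, hx0⟩ := hXne
    have hadd : ∀ c ∈ CC R, ∀ y ∈ X, y + c ∈ X := by
      intro c hc y hy
      exact hXC (mem_sumS.2 ⟨y, hy, c, hc, rfl⟩)
    have key : ∀ z ∈ AddSubgroup.closure (R : Set G), ∀ y ∈ X, y + z ∈ X := by
      intro z hz
      refine AddSubgroup.closure_induction (p := fun z _ => ∀ y ∈ X, y + z ∈ X) ?_ ?_ ?_ ?_ hz
      · intro c hc y hy
        exact hadd c (mem_CC_of_mem hc) y hy
      · intro y hy; simpa using hy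
      · intro a b _ _ ha hb y hy
        have := hb _ (ha y hy)
        rwa [add_assoc] at this
      · intro a _ ha y hy
        have himg : X.image (fun z => z + a) = X := by
          apply Finset.eq_of_subset_of_card_le
          · intro z hz
            rw [Finset.mem_image] at hz
            obtain ⟨u, hu, rfl⟩ := hz
            exact ha u hu
          · rw [Finset.card_image_of_injective _ (add_left_injective a)]
        rw [← himg, Finset.mem_image] at hy
        obtain ⟨u, hu, rfl⟩ := hy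
        simpa using hu
    intro z hz
    have h1 : z - x0 ∈ AddSubgroup.closure (R : Set G) := by
      rw [hcl]
      exact H.sub_mem ((hHf z).1 hz) ((hHf x0).1 (hX hx0))
    have h2 := key _ h1 x0 hx0
    simpa using h2
  have hH : ∀ x ∈ Hf, ∀ y ∈ Hf, x + y ∈ Hf := by
    intro x hx y hy
    rw [hHf] at hx hy ⊢
    exact H.add_mem hx hy
  have hHn : ∀ x ∈ Hf, -x ∈ Hf := by
    intro x hx
    rw [hHf] at hx ⊢
    exact H.neg_mem hx
  have hDH : ∀ k, DD R k ⊆ Hf := by
    intro k
    induction k with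
    | zero =>
      intro x hx
      simp only [DD, Finset.mem_singleton] at hx
      rw [hx, hHf]; exact H.zero_mem
    | succ k ih =>
      intro x hx
      rw [mem_DD_succ] at hx
      obtain ⟨a, ha, c, hc, rfl⟩ := hx
      exact hH _ (ih ha) _ (hCH hc)
  intro k
  induction k with
  | zero =>
    intro _
    have h1 : CC R ⊆ DD R (0 + 1) := by
      intro c hc
      exact mem_DD_succ.2 ⟨0, by simp [DD], c, hc, by simp⟩
    have := Finset.card_le_card h1
    omega
  | succ k ih =>
    intro hk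
    have h1 : (DD R (k + 1)).card ≤ (DD R (k + 1 + 1)).card :=
      Finset.card_le_card (DD_mono_succ R _)
    have h2 := ih (by omega)
    have h3 := isoper hH hHn hCH (zero_mem_CC R) (fun c hc => neg_mem_CC hc) hgen (hDH (k + 1))
      ⟨0, zero_mem_DD R _⟩ (by rw [← DD_succ_eq]; exact hk)
    rw [← DD_succ_eq] at h3
    have e : (k + 1 + 2) * (CC R).card = (k + 2) * (CC R).card + (CC R).card := by ring
    omega

end Pool.Agent.helper43.Rho
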