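import Mathlib

/-!
Growth of subset sums in finite abelian groups, following Olson's method.
-/

open Finset

set_option linter.unusedSectionVars false

namespace Pool.Agent.helper43.Rho

variable {G : Type*} [AddCommGroup G] [DecidableEq G]

/-- number of elements of `S` that leave `S` when translated by `x` -/
def lam (S : Finset G) (x : G) : ℕ := (S.filter (fun s => s + x ∉ S)).card

/-- number of elements of `S` that stay in `S` when translated by `x` -/
def itc (S : Finset G) (x : G) : ℕ := (S.filter (fun s => s + x ∈ S)).card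

theorem itc_add_lam (S : Finset G) (x : G) : itc S x + lam S x = S.card := by
  unfold itc lam
  exact Finset.card_filter_add_card_filter_not (s := S) (fun s => s + x ∈ S)

theorem itc_neg (S : Finset G) (x : G) : itc S (-x) = itc S x := by
  unfold itc
  apply Finset.card_nbij' (fun s => s + -x) (fun s => s + x)
  · intro s hs
    simp only [Finset.coe_filter, Set.mem_ofPred_eq] at hs ⊢
    refine ⟨hs.2, ?_⟩
    simpa using hs.1
  · intro s hs
    simp only [Finset.coe_filter, Set.mem_ofPred_eq] at hs ⊢
    refine ⟨hs.2, ?_⟩
    simpa using hs.1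
  · intro s hs
    simp
  · intro s hs
    simp

theorem lam_neg (S : Finset G) (x : G) : lam S (-x) = lam S x := by
  have h1 := itc_add_lam S (-x)
  have h2 := itc_add_lam S x
  have h3 := itc_neg S x
  omega

theorem lam_zero (S : Finset G) : lam S 0 = 0 := by
  unfold lam
  rw [Finset.card_eq_zero, Finset.filter_eq_empty_iff]
  intro s hs
  simpa using hs

theorem lam_add (S : Finset G) (x y : G) : lam S (x + y) ≤ lam S x + lam S y := by
  unfold lam
  have h : (S.filter (fun s => s + (x + y) ∉ S)) ⊆
      (S.filter (fun s => s + x ∉ S)) ∪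
        ((S.filter (fun s => s + y ∉ S)).image (fun s => s + -x)) := by
    intro s hs
    rw [Finset.mem_filter] at hs
    rw [Finset.mem_union]
    by_cases hx : s + x ∈ S
    · right
      rw [Finset.mem_image]
      refine ⟨s + x, ?_, by simp⟩
      rw [Finset.mem_filter]
      refine ⟨hx, ?_⟩
      rw [add_assoc]
      exact hs.2
    · left
      rw [Finset.mem_filter]
      exact ⟨hs.1, hx⟩
  refine (Finset.card_le_card h).trans ?_
  refine (Finset.card_union_le _ _).trans ?_
  have := Finset.card_image_le (s := S.filter (fun s => s + y ∉ S)) (f := fun s => s + -x)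
  omega

theorem sum_itc_le (S D : Finset G) : ∑ x ∈ D, itc S x ≤ S.card * S.card := by
  have h : ∑ x ∈ D, itc S x = ∑ s ∈ S, (D.filter (fun x => s + x ∈ S)).card := by
    unfold itc
    simp only [Finset.card_filter]
    rw [Finset.sum_comm]
  rw [h]
  refine (Finset.sum_le_card_nsmul S _ S.card ?_).trans (le_of_eq (by simp))
  intro s hs
  apply Finset.card_le_card_of_injOn (fun x => s + x)
  · intro x hx
    simp only [Finset.coe_filter, Set.mem_ofPred_eq] at hx
    exact hx.2
  · intro x _ y _ hxy
    simpa using hxy

theorem sum_itc_le' (S D : Finset G) (h0 : (0 : G) ∉ D) :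
    ∑ x ∈ D, itc S x ≤ S.card * (S.card - 1) := by
  have h : ∑ x ∈ D, itc S x = ∑ s ∈ S, (D.filter (fun x => s + x ∈ S)).card := by
    unfold itc
    simp only [Finset.card_filter]
    rw [Finset.sum_comm]
  rw [h]
  refine (Finset.sum_le_card_nsmul S _ (S.card - 1) ?_).trans (le_of_eq (by simp))
  intro s hs
  rw [← Finset.card_erase_of_mem hs]
  apply Finset.card_le_card_of_injOn (fun x => s + x)
  · intro x hx
    simp only [Finset.coe_filter, Set.mem_ofPred_eq] at hx
    rw [Finset.mem_coe, Finset.mem_erase]
    refine ⟨?_, hx.2⟩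
    intro h1
    have : x = 0 := by simpa using h1
    exact h0 (this ▸ hx.1)
  · intro x _ y _ hxy
    simpa using hxy

/-- asymmetric: no element together with its negative -/
def Asym (A : Finset G) : Prop := ∀ a ∈ A, -a ∉ A

theorem Asym.subset {A B : Finset G} (hA : Asym A) (h : B ⊆ A) : Asym B :=
  fun a ha hna => hA a (h ha) (h hna)

theorem Asym.zero_notMem {A : Finset G} (hA : Asym A) : (0 : G) ∉ A := by
  intro h
  have := hA 0 h
  simp [h] at this

theorem card_sym {A : Finset G} (hA : Asym A) :
    (A ∪ A.image (fun x => -x)).card = 2 * A.card := by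
  rw [Finset.card_union_of_disjoint, Finset.card_image_of_injective _ neg_injective]
  · ring
  · rw [Finset.disjoint_left]
    intro a ha hb
    rw [Finset.mem_image] at hb
    obtain ⟨b, hb, rfl⟩ := hb
    exact hA b hb ha

theorem zero_notMem_sym {A : Finset G} (hA : Asym A) :
    (0 : G) ∉ (A ∪ A.image (fun x => -x)) := by
  intro h
  rw [Finset.mem_union, Finset.mem_image] at h
  rcases h with h | ⟨b, hb, h⟩
  · exact hA.zero_notMem h
  · have : b = 0 := by simpa using h
    exact hA.zero_notMem (this ▸ hb)

/-- averaging: a set no larger than the reservoir is moved by at least half -/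
theorem avg1 {R S : Finset G} (hR : Asym R) (hS : S.Nonempty) (h : S.card ≤ R.card) :
    ∃ x ∈ R, S.card + 1 ≤ 2 * lam S x := by
  by_contra hcon
  push Not at hcon
  have h1 : ∀ x ∈ R ∪ R.image (fun x => -x), S.card ≤ 2 * itc S x := by
    intro x hx
    rw [Finset.mem_union, Finset.mem_image] at hx
    rcases hx with hx | ⟨b, hb, rfl⟩
    · have := hcon x hx
      have := itc_add_lam S x
      omega
    · have := hcon b hb
      have := itc_add_lam S b
      rw [itc_neg]
      omega
  have h2 := sum_itc_le' S (R ∪ R.image (fun x => -x)) (zero_notMem_sym hR)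
  have h3 : (2 * R.card) * S.card ≤ 2 * ∑ x ∈ R ∪ R.image (fun x => -x), itc S x := by
    rw [← card_sym hR, Finset.mul_sum]
    rw [← smul_eq_mul]
    exact Finset.card_nsmul_le_sum _ _ _ h1
  have hpos : 0 < S.card := hS.card_pos
  have h4 : S.card * S.card ≤ R.card * S.card := Nat.mul_le_mul_right _ h
  have h5 : S.card * (S.card - 1) + S.card = S.card * S.card := by
    obtain ⟨k, hk⟩ : ∃ k, S.card = k + 1 := ⟨S.card - 1, by omega⟩
    rw [hk]
    simp
    ring
  nlinarith

end Pool.Agent.helper43.Rho
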