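import Pool.Agent.helper43.Rho.Grow

/-!
Subset sums.
-/

open Finset

set_option linter.unusedSectionVars false

namespace Pool.Agent.helper43.Rho

variable {G : Type*} [AddCommGroup G] [DecidableEq G]

/-- all subset sums, the empty sum included -/
def SS (A : Finset G) : Finset G := A.powerset.image (fun B => ∑ b ∈ B, b)

theorem mem_SS {A : Finset G} {x : G} : x ∈ SS A ↔ ∃ B ⊆ A, ∑ b ∈ B, b = x := by
  simp [SS, Finset.mem_image, Finset.mem_powerset]

theorem SS_mono {A B : Finset G} (h : A ⊆ B) : SS A ⊆ SS B := by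
  intro x hx
  rw [mem_SS] at hx ⊢
  obtain ⟨T, hT, hx⟩ := hx
  exact ⟨T, hT.trans h, hx⟩

theorem zero_mem_SS (A : Finset G) : (0 : G) ∈ SS A :=
  mem_SS.2 ⟨∅, Finset.empty_subset _, by simp⟩

theorem SS_nonempty (A : Finset G) : (SS A).Nonempty := ⟨0, zero_mem_SS A⟩

theorem SS_empty : SS (∅ : Finset G) = {0} := by
  simp [SS]

theorem SS_insert {x : G} {A : Finset G} (hx : x ∉ A) :
    SS (insert x A) = SS A ∪ (SS A).image (fun s => s + x) := by
  ext y
  rw [Finset.mem_union, Finset.mem_image, mem_SS, mem_SS]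
  constructor
  · rintro ⟨T, hT, rfl⟩
    by_cases hxT : x ∈ T
    · right
      refine ⟨∑ b ∈ T.erase x, b, mem_SS.2 ⟨T.erase x, ?_, rfl⟩, ?_⟩
      · intro z hz
        rw [Finset.mem_erase] at hz
        have := hT hz.2
        rw [Finset.mem_insert] at this
        rcases this with h | h
        · exact absurd h hz.1
        · exact h
      · exact Finset.sum_erase_add _ _ hxT
    · left
      refine ⟨T, ?_, rfl⟩
      intro z hz
      have := hT hz
      rw [Finset.mem_insert] at this
      rcases this with h | h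
      · exact absurd (h ▸ hz) hxT
      · exact h
  · rintro (⟨T, hT, rfl⟩ | ⟨s, hs, rfl⟩)
    · exact ⟨T, hT.trans (Finset.subset_insert _ _), rfl⟩
    · rw [mem_SS] at hs
      obtain ⟨T, hT, rfl⟩ := hs
      refine ⟨insert x T, Finset.insert_subset_insert _ hT, ?_⟩
      rw [Finset.sum_insert (fun h => hx (hT h)), add_comm]

theorem card_union_tr (S : Finset G) (x : G) :
    (S ∪ S.image (fun s => s + x)).card = S.card + lam S x := by
  have h : S ∪ S.image (fun s => s + x) =
      S ∪ (S.filter (fun s => s + x ∉ S)).image (fun s => s + x) := by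
    ext y
    simp only [Finset.mem_union, Finset.mem_image, Finset.mem_filter]
    constructor
    · rintro (h | ⟨s, hs, rfl⟩)
      · exact Or.inl h
      · by_cases hsx : s + x ∈ S
        · exact Or.inl hsx
        · exact Or.inr ⟨s, ⟨hs, hsx⟩, rfl⟩
    · rintro (h | ⟨s, ⟨hs, _⟩, rfl⟩)
      · exact Or.inl h
      · exact Or.inr ⟨s, hs, rfl⟩
  rw [h, Finset.card_union_of_disjoint, Finset.card_image_of_injective _ (add_left_injective x)]
  · rfl
  · rw [Finset.disjoint_left]
    intro y hy hy'
    rw [Finset.mem_image] at hy'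
    obtain ⟨s, hs, rfl⟩ := hy'
    rw [Finset.mem_filter] at hs
    exact hs.2 hy

theorem card_SS_insert {x : G} {A : Finset G} (hx : x ∉ A) :
    (SS (insert x A)).card = (SS A).card + lam (SS A) x := by
  rw [SS_insert hx, card_union_tr]

theorem SS_subset_subgroup {A : Finset G} {H : AddSubgroup G} (hA : ∀ a ∈ A, a ∈ H) :
    ∀ x ∈ SS A, x ∈ H := by
  intro x hx
  rw [mem_SS] at hx
  obtain ⟨T, hT, rfl⟩ := hx
  exact AddSubgroup.sum_mem _ (fun b hb => hA b (hT hb))

end Pool.Agent.helper43.Rho
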