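import Pool.Agent.helper43.Rho.Grow2
import Pool.Agent.helper43.Rho.Phase

/-!
Simultaneous averaging on all cosets, the minority set, and the progress predicate.
-/

open Finset

set_option linter.unusedSectionVars false

namespace Pool.Agent.helper43.Rho

variable {G : Type*} [AddCommGroup G] [DecidableEq G]

theorem self_mem_co {U : Finset G} {H : AddSubgroup G} {g : G} (hg : g ∈ U) : g ∈ co U H g := by
  rw [mem_co]; exact ⟨hg, by simp⟩

/-- averaging simultaneously on all cosets -/
theorem avg_all {R U : Finset G} {H : AddSubgroup G} (hR : Asym R) (hRH : ∀ x ∈ R, x ∈ H)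
    (hU : U.Nonempty) (hle : U.card ≤ R.card) :
    ∃ x ∈ R, ∀ g ∈ U, (co U H g).card + 1 ≤ 2 * lam (co U H g) x := by
  classical
  by_contra hcon
  push Not at hcon
  let T : G → ℚ := fun x => ∑ g ∈ U.filter (fun g => g + x ∈ U), (1 : ℚ) / (co U H g).card
  have hTneg : ∀ x ∈ H, T (-x) = T x := by
    intro x hx
    apply Finset.sum_nbij' (fun g => g + -x) (fun g => g + x)
    · intro g hg
      rw [Finset.mem_filter] at hg ⊢
      exact ⟨hg.2, by simpa using hg.1⟩
    · intro g hg
      rw [Finset.mem_filter] at hg ⊢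
      exact ⟨hg.2, by simpa using hg.1⟩
    · intro g _; simp
    · intro g _; simp
    · intro g _
      have : co U H (g + -x) = co U H g := co_congr (by simpa using H.neg_mem hx)
      rw [this]
  have hcopos : ∀ g ∈ U, 0 < (co U H g).card := fun g hg =>
    Finset.card_pos.2 ⟨g, self_mem_co hg⟩
  have hTlow : ∀ x ∈ R, (1 : ℚ) / 2 ≤ T x := by
    intro x hx
    obtain ⟨g, hg, hlam⟩ := hcon x hx
    have h1 := itc_add_lam (co U H g) x
    have h2 : (co U H g).card ≤ 2 * itc (co U H g) x := by omega
    have h3 : (∑ z ∈ (co U H g).filter (fun z => z + x ∈ co U H g),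
        (1 : ℚ) / (co U H z).card) ≤ T x := by
      apply Finset.sum_le_sum_of_subset_of_nonneg
      · intro z hz
        rw [Finset.mem_filter, mem_co, mem_co] at hz
        rw [Finset.mem_filter]
        exact ⟨hz.1.1, hz.2.1⟩
      · intro z _ _
        positivity
    have h4 : (∑ z ∈ (co U H g).filter (fun z => z + x ∈ co U H g),
        (1 : ℚ) / (co U H z).card) = (itc (co U H g) x : ℚ) * (1 / (co U H g).card) := by
      rw [Finset.sum_congr rfl (g := fun _ => (1 : ℚ) / (co U H g).card)]
      · rw [Finset.sum_const, nsmul_eq_mul]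
        rfl
      · intro z hz
        rw [Finset.mem_filter, mem_co] at hz
        rw [co_congr hz.1.2]
    have h5 : (0 : ℚ) < (co U H g).card := by exact_mod_cast hcopos g hg
    have h6 : ((co U H g).card : ℚ) ≤ 2 * itc (co U H g) x := by exact_mod_cast h2
    have h7 : (1 : ℚ) / 2 ≤ (itc (co U H g) x : ℚ) * (1 / (co U H g).card) := by
      rw [mul_one_div, div_le_div_iff₀ (by norm_num) h5]
      linarith
    linarith
  -- upper bound for the sum
  have hup : ∑ x ∈ R ∪ R.image (fun x => -x), T x < U.card := by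
    have h1 : ∑ x ∈ R ∪ R.image (fun x => -x), T x =
        ∑ g ∈ U, ((((R ∪ R.image (fun x => -x)).filter (fun x => g + x ∈ U)).card : ℚ)
          * (1 / (co U H g).card)) := by
      simp only [T]
      simp only [Finset.sum_filter]
      rw [Finset.sum_comm]
      apply Finset.sum_congr rfl
      intro g _
      rw [← Finset.sum_filter, Finset.sum_const, nsmul_eq_mul]
    rw [h1]
    have h2 : ((U.card : ℚ)) = ∑ g ∈ U, (1 : ℚ) := by simp
    rw [h2]
    apply Finset.sum_lt_sum_of_nonempty hU
    intro g hg
    have h3 : ((R ∪ R.image (fun x => -x)).filter (fun x => g + x ∈ U)).card + 1 ≤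
        (co U H g).card := by
      have h4 : ((R ∪ R.image (fun x => -x)).filter (fun x => g + x ∈ U)).card ≤
          ((co U H g).erase g).card := by
        apply Finset.card_le_card_of_injOn (fun x => g + x)
        · intro x hx
          rw [Finset.mem_coe, Finset.mem_filter] at hx
          rw [Finset.mem_coe, Finset.mem_erase, mem_co]
          refine ⟨?_, hx.2, ?_⟩
          · intro h
            have h0 : x = 0 := by simpa using h
            exact zero_notMem_sym hR (h0 ▸ hx.1)
          · have hxH : x ∈ H := by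
              have := hx.1
              rw [Finset.mem_union, Finset.mem_image] at this
              rcases this with h | ⟨y, hy, rfl⟩
              · exact hRH _ h
              · exact H.neg_mem (hRH _ hy)
            simpa using hxH
        · intro x _ y _ hxy
          simpa using hxy
      rw [Finset.card_erase_of_mem (self_mem_co hg)] at h4
      have := hcopos g hg
      omega
    have h5 : (0 : ℚ) < (co U H g).card := by exact_mod_cast hcopos g hg
    rw [mul_one_div, div_lt_one h5]
    have h6 : (((R ∪ R.image (fun x => -x)).filter (fun x => g + x ∈ U)).card : ℚ) + 1 ≤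
        (co U H g).card := by exact_mod_cast h3
    linarith
  have hlow : (R.card : ℚ) ≤ ∑ x ∈ R ∪ R.image (fun x => -x), T x := by
    rw [Finset.sum_union]
    · rw [Finset.sum_image (fun a _ b _ h => neg_injective h)]
      have h1 : ∑ x ∈ R, T (-x) = ∑ x ∈ R, T x :=
        Finset.sum_congr rfl (fun x hx => hTneg x (hRH x hx))
      rw [h1]
      have h2 : (R.card : ℚ) * (1 / 2) ≤ ∑ x ∈ R, T x := by
        rw [← nsmul_eq_mul]
        exact Finset.card_nsmul_le_sum _ _ _ hTlow
      linarith
    · rw [Finset.disjoint_left]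
      intro a ha hb
      rw [Finset.mem_image] at hb
      obtain ⟨b, hb, rfl⟩ := hb
      exact hR b hb ha
  have hle' : (U.card : ℚ) ≤ R.card := by exact_mod_cast hle
  linarith

theorem two_lam [Fintype G] (P : Finset G) (x : G) :
    (Finset.univ.filter (fun z => ¬ (z ∈ P ↔ z + x ∈ P))).card = 2 * lam P x := by
  classical
  have h1 : (Finset.univ.filter (fun z => ¬ (z ∈ P ↔ z + x ∈ P))) =
      (P.filter (fun z => z + x ∉ P)) ∪
        (P.filter (fun z => z + -x ∉ P)).image (fun z => z + -x) := by
    ext z
    simp only [Finset.mem_filter, Finset.mem_univ, true_and, Finset.mem_union, Finset.mem_image]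
    constructor
    · intro h
      by_cases hz : z ∈ P
      · left
        exact ⟨hz, fun h2 => h ⟨fun _ => h2, fun _ => hz⟩⟩
      · right
        have h2 : z + x ∈ P := by
          by_contra h3
          exact h ⟨fun h4 => absurd h4 hz, fun h4 => absurd h4 h3⟩
        exact ⟨z + x, ⟨h2, by simpa using hz⟩, by simp⟩
    · rintro (⟨h1, h2⟩ | ⟨w, ⟨h1, h2⟩, rfl⟩)
      · intro h3; exact h2 (h3.1 h1)
      · intro h3
        apply h2
        rw [h3]
        simpa using h1
  rw [h1, Finset.card_union_of_disjoint, Finset.card_image_of_injective _ (add_left_injective (-x))]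
  · have h2 := lam_neg P x
    have h3 : (P.filter (fun z => z + x ∉ P)).card = lam P x := rfl
    have h4 : (P.filter (fun z => z + -x ∉ P)).card = lam P (-x) := rfl
    omega
  · rw [Finset.disjoint_left]
    intro z hz hz2
    rw [Finset.mem_image] at hz2
    obtain ⟨w, hw, rfl⟩ := hz2
    rw [Finset.mem_filter] at hz hw
    exact hw.2 hz.1

theorem lam_eq_of_xor [Fintype G] {P Q : Finset G} {x : G}
    (h : ∀ z, ((z ∈ P ↔ z + x ∈ P) ↔ (z ∈ Q ↔ z + x ∈ Q))) : lam P x = lam Q x := by
  have h1 := two_lam P x
  have h2 := two_lam Q x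
  have h3 : (Finset.univ.filter (fun z => ¬ (z ∈ P ↔ z + x ∈ P))) =
      (Finset.univ.filter (fun z => ¬ (z ∈ Q ↔ z + x ∈ Q))) := by
    apply Finset.filter_congr
    intro z _
    rw [h z]
  rw [h3] at h1
  omega

open Classical in
/-- the set obtained from `S` by complementing it inside the cosets it fills by more than half -/
noncomputable def mino [Fintype G] (S : Finset G) (H : AddSubgroup G) (h : ℕ) : Finset G :=
  Finset.univ.filter (fun z => if 2 * (co S H z).card ≤ h then z ∈ S else z ∉ S)

theorem mem_mino [Fintype G] {S : Finset G} {H : AddSubgroup G} {h : ℕ} {z : G} :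
    z ∈ mino S H h ↔ ((2 * (co S H z).card ≤ h ∧ z ∈ S) ∨ (h < 2 * (co S H z).card ∧ z ∉ S)) := by
  classical
  unfold mino
  rw [Finset.mem_filter]
  by_cases hs : 2 * (co S H z).card ≤ h
  · have hs' : ¬ h < 2 * (co S H z).card := by omega
    simp [hs, hs']
  · have hs' : h < 2 * (co S H z).card := by omega
    simp [hs, hs']

theorem lam_mino [Fintype G] {S : Finset G} {H : AddSubgroup G} {h : ℕ} {x : G} (hx : x ∈ H) :
    lam S x = lam (mino S H h) x := by
  apply lam_eq_of_xor
  intro z
  have hco : co S H (z + x) = co S H z := co_congr (by simpa using hx)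
  rw [mem_mino, mem_mino, hco]
  by_cases hs : 2 * (co S H z).card ≤ h
  · have hs' : ¬ h < 2 * (co S H z).card := by omega
    simp only [hs, hs', true_and, false_and, or_false]
  · have hs' : h < 2 * (co S H z).card := by omega
    simp only [hs, hs', true_and, false_and, false_or, not_iff_not]

theorem lam_co_mino [Fintype G] {S : Finset G} {H : AddSubgroup G} {h : ℕ} {x : G} (hx : x ∈ H)
    (g : G) : lam (co S H g) x = lam (co (mino S H h) H g) x := by
  apply lam_eq_of_xor
  intro z
  rw [mem_co, mem_co, mem_co, mem_co, mem_mino, mem_mino]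
  have hco : co S H (z + x) = co S H z := co_congr (by simpa using hx)
  rw [hco]
  by_cases hz : z - g ∈ H
  · have hz2 : z + x - g ∈ H := by
      have := H.add_mem hz hx
      have e : z - g + x = z + x - g := by abel
      rwa [e] at this
    by_cases hs : 2 * (co S H z).card ≤ h
    · have hs' : ¬ h < 2 * (co S H z).card := by omega
      simp only [hs, hs', hz, hz2, true_and, false_and, or_false, and_true]
    · have hs' : h < 2 * (co S H z).card := by omega
      simp only [hs, hs', hz, hz2, true_and, false_and, false_or, and_true, not_iff_not]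
  · have hz2 : z + x - g ∉ H := by
      intro h2
      apply hz
      have := H.sub_mem h2 hx
      have e : z + x - g - x = z - g := by abel
      rwa [e] at this
    simp only [hz, hz2, and_false]

theorem co_subset_coset {S Hf : Finset G} {H : AddSubgroup G} (hHf : ∀ x, x ∈ Hf ↔ x ∈ H) (g : G) :
    co S H g ⊆ tr Hf g := by
  intro z hz
  rw [mem_co] at hz
  rw [mem_tr, hHf]
  exact hz.2

theorem card_co_le {S Hf : Finset G} {H : AddSubgroup G} (hHf : ∀ x, x ∈ Hf ↔ x ∈ H) (g : G) :
    (co S H g).card ≤ Hf.card := by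
  rw [← card_tr Hf g]
  exact Finset.card_le_card (co_subset_coset hHf g)

theorem card_co_mino [Fintype G] {S Hf : Finset G} {H : AddSubgroup G}
    (hHf : ∀ x, x ∈ Hf ↔ x ∈ H) (g : G) :
    (co (mino S H Hf.card) H g).card =
      if 2 * (co S H g).card ≤ Hf.card then (co S H g).card else Hf.card - (co S H g).card := by
  by_cases hs : 2 * (co S H g).card ≤ Hf.card
  · rw [if_pos hs]
    congr 1
    ext z
    rw [mem_co, mem_co, mem_mino]
    constructor
    · rintro ⟨h1, h2⟩
      have hco : co S H z = co S H g := co_congr h2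
      rw [hco] at h1
      rcases h1 with h1 | h1
      · exact ⟨h1.2, h2⟩
      · omega
    · rintro ⟨h1, h2⟩
      have hco : co S H z = co S H g := co_congr h2
      rw [hco]
      exact ⟨Or.inl ⟨hs, h1⟩, h2⟩
  · rw [if_neg hs]
    have h1 : co (mino S H Hf.card) H g = tr Hf g \ co S H g := by
      ext z
      rw [mem_co, Finset.mem_sdiff, mem_co, mem_mino, mem_tr, hHf]
      constructor
      · rintro ⟨h1, h2⟩
        have hco : co S H z = co S H g := co_congr h2
        rw [hco] at h1
        refine ⟨h2, fun h3 => ?_⟩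
        rcases h1 with h1 | h1
        · omega
        · exact h1.2 h3.1
      · rintro ⟨h1, h2⟩
        have hco : co S H z = co S H g := co_congr h1
        rw [hco]
        exact ⟨Or.inr ⟨by omega, fun h3 => h2 ⟨h3, h1⟩⟩, h1⟩
    rw [h1, Finset.card_sdiff_of_subset (co_subset_coset hHf g), card_tr]

theorem periodic_of_mino_empty [Fintype G] {S Hf : Finset G} {H : AddSubgroup G}
    (h : mino S H Hf.card = ∅) : ∀ s ∈ S, ∀ k ∈ H, s + k ∈ S := by
  intro s hs k hk
  have h1 : s ∉ mino S H Hf.card := by rw [h]; simp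
  have h2 : s + k ∉ mino S H Hf.card := by rw [h]; simp
  have hco : co S H (s + k) = co S H s := co_congr (by simpa using hk)
  rw [mem_mino] at h1 h2
  rw [hco] at h2
  by_contra hcon
  have h3 : Hf.card < 2 * (co S H s).card := by
    by_contra h4
    exact h1 (Or.inl ⟨by omega, hs⟩)
  exact h2 (Or.inr ⟨h3, hcon⟩)

theorem card_co_step {S : Finset G} {H : AddSubgroup G} {x : G} (hx : x ∈ H) (g : G) :
    (co (S ∪ S.image (fun s => s + x)) H g).card = (co S H g).card + lam (co S H g) x := by
  rw [← card_union_tr]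
  congr 1
  ext z
  rw [mem_co, Finset.mem_union, Finset.mem_union, mem_co, Finset.mem_image, Finset.mem_image]
  constructor
  · rintro ⟨h1 | ⟨s, hs, rfl⟩, h2⟩
    · exact Or.inl ⟨h1, h2⟩
    · right
      refine ⟨s, ?_, rfl⟩
      rw [mem_co]
      refine ⟨hs, ?_⟩
      have := H.sub_mem h2 hx
      have e : s + x - g - x = s - g := by abel
      rwa [e] at this
  · rintro (⟨h1, h2⟩ | ⟨s, hs, rfl⟩)
    · exact ⟨Or.inl h1, h2⟩
    · rw [mem_co] at hs
      refine ⟨Or.inr ⟨s, hs.1, rfl⟩, ?_⟩
      have := H.add_mem hs.2 hx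
      have e : s - g + x = s + x - g := by abel
      rwa [e] at this

theorem co_nonempty_step {S : Finset G} {H : AddSubgroup G} {x : G} (hx : x ∈ H) {g : G}
    (h : (co (S ∪ S.image (fun s => s + x)) H g).Nonempty) : (co S H g).Nonempty := by
  obtain ⟨z, hz⟩ := h
  rw [mem_co, Finset.mem_union, Finset.mem_image] at hz
  rcases hz with ⟨h1 | ⟨s, hs, rfl⟩, h2⟩
  · exact ⟨z, mem_co.2 ⟨h1, h2⟩⟩
  · refine ⟨s, mem_co.2 ⟨hs, ?_⟩⟩
    have := H.sub_mem h2 hx
    have e : s + x - g - x = s - g := by abel
    rwa [e] at this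

/-- after `j` simultaneous steps every coset met by `S` is full, or has grown by the factor
`3/2` in each of the steps, or its missing part has been halved `j - J` times -/
def Prog (S : Finset G) (H : AddSubgroup G) (h m J j : ℕ) : Prop :=
  ∀ g, (co S H g).Nonempty → (co S H g).card = h ∨
    (j ≤ J ∧ 2 * 3 ^ j ≤ ((co S H g).card + 1) * 2 ^ j) ∨
    (h < 2 * (co S H g).card ∧ (h - (co S H g).card + 1) * 2 ^ (j - J) ≤ m + 1)

theorem Prog_zero (S : Finset G) (H : AddSubgroup G) (h m J : ℕ) : Prog S H h m J 0 := by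
  intro g hg
  right; left
  refine ⟨Nat.zero_le _, ?_⟩
  have := hg.card_pos
  simp only [pow_zero, mul_one]
  omega

theorem Prog_mono {S Hf : Finset G} {H : AddSubgroup G} {m J j : ℕ}
    (hHf : ∀ x, x ∈ Hf ↔ x ∈ H) (hP : Prog S H Hf.card m J j) {x : G} (hx : x ∈ H) :
    Prog (S ∪ S.image (fun s => s + x)) H Hf.card m J j := by
  intro g hg
  have h1 := co_nonempty_step hx hg
  have h2 := card_co_step (S := S) hx g
  have h3 := card_co_le (S := S ∪ S.image (fun s => s + x)) hHf g
  rcases hP g h1 with h4 | ⟨h4, h5⟩ | ⟨h4, h5⟩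
  · left; omega
  · right; left
    refine ⟨h4, h5.trans (Nat.mul_le_mul_right _ (by omega))⟩
  · right; right
    refine ⟨by omega, le_trans (Nat.mul_le_mul_right _ (by omega)) h5⟩

theorem Prog_exc [Fintype G] {S Hf : Finset G} {H : AddSubgroup G} {m J j : ℕ}
    (hHf : ∀ x, x ∈ Hf ↔ x ∈ H) (hJ : (m + 1) * 2 ^ J < 2 * 3 ^ J)
    (hP : Prog S H Hf.card m J j) {x : G} (hx : x ∈ H)
    (hUm : (mino S H Hf.card).card ≤ m)
    (hall : ∀ g ∈ mino S H Hf.card, (co (mino S H Hf.card) H g).card + 1 ≤
      2 * lam (co (mino S H Hf.card) H g) x) :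
    Prog (S ∪ S.image (fun s => s + x)) H Hf.card m J (j + 1) := by
  intro g hg
  have h1 := co_nonempty_step hx hg
  have h2 := card_co_step (S := S) hx g
  have h3 := card_co_le (S := S ∪ S.image (fun s => s + x)) hHf g
  have h3' := card_co_le (S := S) hHf g
  have hpos := h1.card_pos
  by_cases hfull : (co S H g).card = Hf.card
  · left; omega
  · -- the minority part of this coset is nonempty
    have hU := card_co_mino (S := S) hHf g
    have hUpos : 0 < (co (mino S H Hf.card) H g).card := by
      rw [hU]; split_ifs <;> omega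
    obtain ⟨z, hz⟩ := Finset.card_pos.1 hUpos
    rw [mem_co] at hz
    have hcoz : co (mino S H Hf.card) H z = co (mino S H Hf.card) H g := co_congr hz.2
    have h4 := hall z hz.1
    rw [hcoz, ← lam_co_mino hx g] at h4
    have hUle : (co (mino S H Hf.card) H g).card ≤ m := by
      refine le_trans (Finset.card_le_card ?_) hUm
      intro y hy
      exact (mem_co.1 hy).1
    rw [hU] at h4 hUle
    set s := (co S H g).card with hs
    set s' := (co (S ∪ S.image (fun s => s + x)) H g).card with hs'
    set l := lam (co S H g) x with hl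
    set h := Hf.card with hh
    have halfpow : ∀ e : ℕ, (h - s + 1) * 2 ^ e ≤ m + 1 → h < 2 * s →
        (h - s' + 1) * 2 ^ (e + 1) ≤ m + 1 := by
      intro e he hlarge
      rw [if_neg (by omega)] at h4
      have h5 : (h - s' + 1) * 2 ≤ h - s + 1 := by omega
      calc (h - s' + 1) * 2 ^ (e + 1) = ((h - s' + 1) * 2) * 2 ^ e := by ring
        _ ≤ (h - s + 1) * 2 ^ e := Nat.mul_le_mul_right _ h5
        _ ≤ m + 1 := he
    rcases hP g h1 with h5 | ⟨h5, h6⟩ | ⟨h5, h6⟩
    · exact absurd h5 hfull
    · by_cases hsmall : 2 * s ≤ h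
      · rw [if_pos hsmall] at h4 hUle
        have hjJ : j < J := by
          rcases Nat.lt_or_ge j J with h7 | h7
          · exact h7
          · exfalso
            have : j = J := le_antisymm h5 h7
            rw [this] at h6
            have h6' : 2 * 3 ^ J ≤ (s + 1) * 2 ^ J := h6
            have h8 : (s + 1) * 2 ^ J ≤ (m + 1) * 2 ^ J := Nat.mul_le_mul_right _ (by omega)
            omega
        right; left
        refine ⟨hjJ, ?_⟩
        have h7 : 3 * (s + 1) ≤ 2 * (s' + 1) := by omega
        calc 2 * 3 ^ (j + 1) = 3 * (2 * 3 ^ j) := by ring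
          _ ≤ 3 * ((s + 1) * 2 ^ j) := Nat.mul_le_mul_left _ h6
          _ = (3 * (s + 1)) * 2 ^ j := by ring
          _ ≤ (2 * (s' + 1)) * 2 ^ j := Nat.mul_le_mul_right _ h7
          _ = _ := by ring
      · right; right
        refine ⟨by omega, ?_⟩
        rw [if_neg hsmall] at hUle
        have h7 := halfpow 0 (by rw [pow_zero]; omega) (by omega)
        refine le_trans (Nat.mul_le_mul_left _ (Nat.pow_le_pow_right (by norm_num) ?_)) h7
        omega
    · right; right
      refine ⟨by omega, ?_⟩
      have h7 := halfpow (j - J) h6 h5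
      refine le_trans (Nat.mul_le_mul_left _ (Nat.pow_le_pow_right (by norm_num) ?_)) h7
      omega

theorem Prog_end [Fintype G] {S Hf : Finset G} {H : AddSubgroup G} {m J I : ℕ}
    (hHf : ∀ x, x ∈ Hf ↔ x ∈ H) (hI : 1 ≤ I) (hI2 : m + 1 < 2 ^ (I + 1))
    (hP : Prog S H Hf.card m J (J + I)) : mino S H Hf.card = ∅ := by
  rw [Finset.eq_empty_iff_forall_notMem]
  intro z hz
  rw [mem_mino] at hz
  have hfull : (co S H z).Nonempty → (co S H z).card = Hf.card := by
    intro hne
    rcases hP z hne with h | ⟨h, _⟩ | ⟨h, h2⟩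
    · exact h
    · omega
    · have h3 := card_co_le (S := S) hHf z
      have e : J + I - J = I := by omega
      rw [e] at h2
      by_contra hcon
      have h4 : 2 ≤ Hf.card - (co S H z).card + 1 := by omega
      have h5 : 2 * 2 ^ I ≤ (Hf.card - (co S H z).card + 1) * 2 ^ I := Nat.mul_le_mul_right _ h4
      have h6 : 2 ^ (I + 1) = 2 * 2 ^ I := by ring
      omega
  have hHfpos : 0 < Hf.card := Finset.card_pos.2 ⟨0, (hHf 0).2 H.zero_mem⟩
  rcases hz with ⟨h1, h2⟩ | ⟨h1, h2⟩
  · have h3 := hfull ⟨z, self_mem_co h2⟩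
    omega
  · have hne : (co S H z).Nonempty := by
      rw [← Finset.card_pos]; omega
    have h3 := hfull hne
    have h4 : co S H z = tr Hf z := by
      apply Finset.eq_of_subset_of_card_le (co_subset_coset hHf z)
      rw [card_tr]; omega
    have h5 : z ∈ tr Hf z := by
      rw [mem_tr, hHf]; simp
    rw [← h4, mem_co] at h5
    exact h2 h5.1

end Pool.Agent.helper43.Rho
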