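import Pool.Agent.helper43.Rho.Basic

/-!
Iterated sumsets of `{0} ∪ R ∪ -R`.
-/

open Finset

set_option linter.unusedSectionVars false

namespace Pool.Agent.helper43.Rho

variable {G : Type*} [AddCommGroup G] [DecidableEq G]

/-- `{0} ∪ R ∪ -R` -/
def CC (R : Finset G) : Finset G := insert 0 (R ∪ R.image (fun x => -x))

/-- sums of `k` elements of `CC R` -/
def DD (R : Finset G) : ℕ → Finset G
  | 0 => {0}
  | k + 1 => (DD R k ×ˢ CC R).image (fun p => p.1 + p.2)

theorem mem_DD_succ {R : Finset G} {k : ℕ} {x : G} :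
    x ∈ DD R (k + 1) ↔ ∃ a ∈ DD R k, ∃ c ∈ CC R, a + c = x := by
  simp only [DD, Finset.mem_image, Finset.mem_product, Prod.exists]
  constructor
  · rintro ⟨a, c, ⟨ha, hc⟩, rfl⟩
    exact ⟨a, ha, c, hc, rfl⟩
  · rintro ⟨a, ha, c, hc, rfl⟩
    exact ⟨a, c, ⟨ha, hc⟩, rfl⟩

theorem zero_mem_CC (R : Finset G) : (0 : G) ∈ CC R := by
  unfold CC; simp

theorem mem_CC_of_mem {R : Finset G} {x : G} (hx : x ∈ R) : x ∈ CC R := by
  unfold CC; simp [hx]

theorem neg_mem_CC_of_mem {R : Finset G} {x : G} (hx : x ∈ R) : -x ∈ CC R := by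
  unfold CC; simp [hx]

theorem neg_mem_CC {R : Finset G} {x : G} (hx : x ∈ CC R) : -x ∈ CC R := by
  unfold CC at hx
  rw [Finset.mem_insert, Finset.mem_union, Finset.mem_image] at hx
  rcases hx with rfl | hx | ⟨y, hy, rfl⟩
  · rw [neg_zero]; exact zero_mem_CC R
  · exact neg_mem_CC_of_mem hx
  · rw [neg_neg]; exact mem_CC_of_mem hy

theorem card_CC {R : Finset G} (hR : Asym R) : (CC R).card = 2 * R.card + 1 := by
  unfold CC
  rw [Finset.card_insert_of_notMem (zero_notMem_sym hR), card_sym hR]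

theorem DD_mono_succ (R : Finset G) (k : ℕ) : DD R k ⊆ DD R (k + 1) := by
  intro x hx
  rw [mem_DD_succ]
  exact ⟨x, hx, 0, zero_mem_CC R, by simp⟩

theorem lam_DD_le {R S : Finset G} {M : ℕ} (hM : ∀ x ∈ R, lam S x ≤ M) (k : ℕ) :
    ∀ x ∈ DD R k, lam S x ≤ k * M := by
  induction k with
  | zero =>
    intro x hx
    simp only [DD, Finset.mem_singleton] at hx
    subst hx
    rw [lam_zero]; simp
  | succ k ih =>
    intro x hx
    rw [mem_DD_succ] at hx
    obtain ⟨a, ha, c, hc, rfl⟩ := hx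
    have h1 := ih a ha
    have h2 : lam S c ≤ M := by
      unfold CC at hc
      rw [Finset.mem_insert, Finset.mem_union, Finset.mem_image] at hc
      rcases hc with rfl | hx | ⟨y, hy, rfl⟩
      · rw [lam_zero]; exact Nat.zero_le _
      · exact hM _ hx
      · rw [lam_neg]; exact hM _ hy
    have h3 := lam_add S a c
    calc lam S (a + c) ≤ lam S a + lam S c := h3
      _ ≤ k * M + M := Nat.add_le_add h1 h2
      _ = (k + 1) * M := by ring

end Pool.Agent.helper43.Rho
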