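import Pool.Agent.helper43.Rho.Atom

/-!
The growth lemma with constant `1/2`, for sets meeting several cosets.
-/

open Finset

set_option linter.unusedSectionVars false

namespace Pool.Agent.helper43.Rho

variable {G : Type*} [AddCommGroup G] [DecidableEq G]

open Classical in
/-- the part of `S` in the coset of `g` modulo `H` -/
noncomputable def co (S : Finset G) (H : AddSubgroup G) (g : G) : Finset G :=
  S.filter (fun z => z - g ∈ H)

theorem mem_co {S : Finset G} {H : AddSubgroup G} {g z : G} : z ∈ co S H g ↔ z ∈ S ∧ z - g ∈ H := by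
  simp [co]

theorem co_congr {S : Finset G} {H : AddSubgroup G} {g g' : G} (h : g' - g ∈ H) :
    co S H g' = co S H g := by
  ext z
  rw [mem_co, mem_co]
  constructor
  · rintro ⟨h1, h2⟩
    refine ⟨h1, ?_⟩
    have := H.add_mem h2 h
    have e : z - g' + (g' - g) = z - g := by abel
    rwa [e] at this
  · rintro ⟨h1, h2⟩
    refine ⟨h1, ?_⟩
    have := H.sub_mem h2 h
    have e : z - g - (g' - g) = z - g' := by abel
    rwa [e] at this

theorem sum_itc_coset {U D : Finset G} {H : AddSubgroup G} (hD : ∀ x ∈ D, x ∈ H) :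
    ∑ x ∈ D, itc U x ≤ ∑ g ∈ U, (co U H g).card := by
  have h : ∑ x ∈ D, itc U x = ∑ s ∈ U, (D.filter (fun x => s + x ∈ U)).card := by
    unfold itc
    simp only [Finset.card_filter]
    rw [Finset.sum_comm]
  rw [h]
  apply Finset.sum_le_sum
  intro s _
  apply Finset.card_le_card_of_injOn (fun x => s + x)
  · intro x hx
    rw [Finset.mem_coe, Finset.mem_filter] at hx
    rw [Finset.mem_coe, mem_co]
    refine ⟨hx.2, ?_⟩
    have := hD x hx.1
    simpa using this
  · intro x _ y _ hxy
    simpa using hxy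

theorem sum_itc_half {U D : Finset G} {H : AddSubgroup G} {h : ℕ} (hD : ∀ x ∈ D, x ∈ H)
    (hU : ∀ g ∈ U, 2 * (co U H g).card ≤ h) : 2 * ∑ x ∈ D, itc U x ≤ U.card * h := by
  have h1 := sum_itc_coset (U := U) hD
  have h2 : 2 * ∑ g ∈ U, (co U H g).card ≤ U.card * h := by
    rw [Finset.mul_sum, ← smul_eq_mul]
    exact Finset.sum_le_card_nsmul _ _ _ hU
  omega

/-- layered lower bound for the sum of intersections -/
theorem layer {U R : Finset G} {M : ℕ} (hM : ∀ x ∈ R, lam U x ≤ M) (t : ℕ) :
    ((DD R t).card : ℤ) * ((U.card : ℤ) - t * M) + M * ∑ k ∈ Finset.range t, ((DD R k).card : ℤ) ≤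
      ((∑ x ∈ DD R t, itc U x : ℕ) : ℤ) := by
  have hitc : ∀ k, ∀ x ∈ DD R k, (U.card : ℤ) - k * M ≤ (itc U x : ℤ) := by
    intro k x hx
    have h1 := lam_DD_le hM k x hx
    have h2 := itc_add_lam U x
    have h3 : (U.card : ℤ) = itc U x + lam U x := by exact_mod_cast h2.symm
    have h4 : (lam U x : ℤ) ≤ k * M := by exact_mod_cast h1
    linarith
  induction t with
  | zero =>
    have h1 := hitc 0 0 (by simp [DD])
    simp only [DD, Finset.card_singleton, Finset.range_zero, Finset.sum_empty,
      Finset.sum_singleton]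
    push_cast at h1 ⊢
    linarith
  | succ t ih =>
    have hsub := DD_mono_succ R t
    have hsplit := Finset.sum_sdiff (f := fun x => itc U x) hsub
    have hcard : ((DD R (t + 1) \ DD R t).card : ℤ) = (DD R (t + 1)).card - (DD R t).card := by
      rw [Finset.card_sdiff_of_subset hsub, Nat.cast_sub (Finset.card_le_card hsub)]
    have h1 : ((DD R (t + 1) \ DD R t).card : ℤ) * ((U.card : ℤ) - (t + 1 : ℕ) * M) ≤
        ((∑ x ∈ DD R (t + 1) \ DD R t, itc U x : ℕ) : ℤ) := by
      rw [Nat.cast_sum, ← nsmul_eq_mul]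
      apply Finset.card_nsmul_le_sum
      intro x hx
      exact hitc (t + 1) x (Finset.mem_sdiff.1 hx).1
    rw [← hsplit, Nat.cast_add, Finset.sum_range_succ]
    rw [hcard] at h1
    push_cast at h1 ih ⊢
    nlinarith

/-- arithmetic, generated subgroup not reached -/
theorem arith1 {a M t u v Q N S : ℤ} (ha : 4 * M + 1 ≤ a) (hM : 1 ≤ M) (ht : 2 ≤ t)
    (hu : u = t * M + v) (hv : 0 ≤ v) (hvM : v ≤ M) (hQ : Q ≤ u * u)
    (hN : (t + 1) * a ≤ 2 * N) (hS : 4 + a * (t * (t + 1)) ≤ 4 * S + 2 * a)
    (hF : N * v + M * S ≤ Q) : False := by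
  have h1 : 2 * (t + 1) * a * v ≤ 4 * (N * v) := by nlinarith
  have h2 : M * (4 + a * (t * (t + 1)) - 2 * a) ≤ 4 * (M * S) := by nlinarith
  have h3 : 2 * (t + 1) * a * v + M * (4 + a * (t * (t + 1) - 2)) ≤ 4 * (u * u) := by nlinarith
  have hc1 : 0 ≤ 2 * (t + 1) * v + M * (t * (t + 1) - 2) := by
    have : 0 ≤ t * (t + 1) - 2 := by nlinarith
    positivity
  have h4 : (4 * M + 1) * (2 * (t + 1) * v + M * (t * (t + 1) - 2)) ≤
      a * (2 * (t + 1) * v + M * (t * (t + 1) - 2)) := mul_le_mul_of_nonneg_right ha hc1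
  have h5 : a * (2 * (t + 1) * v + M * (t * (t + 1) - 2)) + 4 * M ≤ 4 * (u * u) := by nlinarith
  have h6 : (4 * M + 1) * (2 * (t + 1) * v + M * (t * (t + 1) - 2)) + 4 * M ≤ 4 * (u * u) := by
    linarith
  rw [hu] at h6
  have h7 : 0 ≤ M * v := by positivity
  have h8 : v * v ≤ M * v := by nlinarith
  have h9 : 0 ≤ M * M * (t - 2) := by
    have : 0 ≤ t - 2 := by linarith
    positivity
  have h10 : 0 ≤ M * (t * (t + 1) - 2) := by
    have : 0 ≤ t * (t + 1) - 2 := by nlinarith
    positivity
  have h11 : 0 ≤ (t + 1) * v := by positivity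
  nlinarith

/-- arithmetic, generated subgroup reached -/
theorem arith2 {a M j u Q h S : ℤ} (ha : 4 * M + 1 ≤ a) (hM : 0 ≤ M) (hj : 1 ≤ j)
    (huM : 2 * M < u) (hju : j * M ≤ u) (hh : 0 < h) (hQ : Q ≤ u * u) (hQ2 : 2 * Q ≤ u * h)
    (hS : 4 + a * (j * (j + 1)) ≤ 4 * S + 2 * a)
    (hF : h * (u - j * M) + M * S ≤ Q) : False := by
  have hu : 0 < u := by linarith
  have h2 : M * (4 + a * (j * (j + 1) - 2)) ≤ 4 * (M * S) := by nlinarith
  have hjj : 0 ≤ j * (j + 1) - 2 := by nlinarith
  have h3 : M * (4 + (4 * M + 1) * (j * (j + 1) - 2)) ≤ M * (4 + a * (j * (j + 1) - 2)) := by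
    apply mul_le_mul_of_nonneg_left _ hM
    have := mul_le_mul_of_nonneg_right ha hjj
    linarith
  set X := 4 * (M * S) with hX
  have hi : 4 * (h * (u - j * M)) + X ≤ 2 * (u * h) := by linarith
  have hii : 4 * (h * (u - j * M)) + X ≤ 4 * (u * u) := by linarith
  have hX1 : M * (4 + (4 * M + 1) * (j * (j + 1) - 2)) ≤ X := by linarith
  rcases eq_or_lt_of_le hM with hM0 | hM0
  · subst hM0
    have : 0 < h * u := by positivity
    nlinarith
  rcases eq_or_lt_of_le hj with hj1 | hj1
  · subst hj1
    have h4 : 4 * M ≤ X := by nlinarith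
    have h5 : 0 < h * (u - 2 * M) := mul_pos hh (by linarith)
    nlinarith
  · have hj2 : 2 ≤ j := hj1
    set y := j * M with hy
    have h4 : 4 * (y * y) < X := by
      have h5 : 0 ≤ M * M * (j - 2) := by
        have : 0 ≤ j - 2 := by linarith
        positivity
      have h6 : 0 ≤ M * (j * (j + 1) - 2) := by positivity
      have h7 : 4 * (y * y) = 4 * (M * M * (j * j)) := by rw [hy]; ring
      nlinarith
    have hy0 : 0 ≤ y := by positivity
    have h5 : 0 < (u - y) * (u + y - h) := by nlinarith
    have huy : 0 < u - y := by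
      rcases eq_or_lt_of_le hju with h6 | h6
      · exfalso; rw [← h6] at h5; simp at h5
      · linarith
    have huyh : 0 < u + y - h := by
      by_contra hcon
      push Not at hcon
      nlinarith
    have h6 : 2 * (y * y) < h * (2 * y - u) := by nlinarith
    have h7 : 0 < 2 * y - u := by
      by_contra hcon
      push Not at hcon
      nlinarith
    have h8 : h * (2 * y - u) < (u + y) * (2 * y - u) := by nlinarith
    nlinarith

/-- Growth lemma: `R` asymmetric with closure `H`, `U` with at most half of each coset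
of `H`, more elements in `U` than in `R`. Then some element of `R` moves more than `|R| / 2`
elements of `U`. -/
theorem grow2 {R U Hf : Finset G} {H : AddSubgroup G} (hHf : ∀ x, x ∈ Hf ↔ x ∈ H)
    (hcl : AddSubgroup.closure (R : Set G) = H) (hR : Asym R) (hne : R.Nonempty)
    (hU : ∀ g ∈ U, 2 * (co U H g).card ≤ Hf.card) (hRU : R.card < U.card) :
    ∃ x ∈ R, R.card + 1 ≤ 2 * lam U x := by
  by_contra hcon
  push Not at hcon
  set r := R.card with hr
  set M := r / 2 with hMdef
  have hM : ∀ x ∈ R, lam U x ≤ M := by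
    intro x hx
    have := hcon x hx
    omega
  have hDH : ∀ k, ∀ x ∈ DD R k, x ∈ H := by
    intro k
    induction k with
    | zero =>
      intro x hx
      simp only [DD, Finset.mem_singleton] at hx
      rw [hx]; exact H.zero_mem
    | succ k ih =>
      intro x hx
      rw [mem_DD_succ] at hx
      obtain ⟨a, ha, c, hc, rfl⟩ := hx
      apply H.add_mem (ih a ha)
      unfold CC at hc
      rw [Finset.mem_insert, Finset.mem_union, Finset.mem_image] at hc
      rcases hc with rfl | hx | ⟨y, hy, rfl⟩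
      · exact H.zero_mem
      · rw [← hcl]; exact AddSubgroup.subset_closure hx
      · apply H.neg_mem; rw [← hcl]; exact AddSubgroup.subset_closure hy
  have hDHf : ∀ k, (DD R k).card ≤ Hf.card := by
    intro k
    apply Finset.card_le_card
    intro x hx
    rw [hHf]; exact hDH k x hx
  have hgr := DD_growth2 hHf hcl
  have hCC := card_CC hR
  have hrpos : 0 < r := hne.card_pos
  have hN0 : (DD R 0).card = 1 := by simp [DD]
  have hHf3 : 1 < Hf.card := by
    have h1 : CC R ⊆ Hf := by
      intro c hc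
      rw [hHf]
      apply hDH 1
      exact mem_DD_succ.2 ⟨0, by simp [DD], c, hc, by simp⟩
    have := Finset.card_le_card h1
    omega
  -- lower bound for partial sums
  have hsum : ∀ t, 1 ≤ t → (∀ k < t, (DD R k).card < Hf.card) →
      (4 : ℤ) + ((CC R).card : ℤ) * ((t : ℤ) * (t + 1)) ≤
        4 * ∑ k ∈ Finset.range t, ((DD R k).card : ℤ) + 2 * (CC R).card := by
    intro t ht
    induction t with
    | zero => omega
    | succ t ih =>
      intro hk
      rw [Finset.sum_range_succ]
      rcases Nat.eq_zero_or_pos t with h0 | h0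
      · subst h0
        simp only [Finset.range_zero, Finset.sum_empty, hN0]
        push_cast
        linarith
      · have h1 := ih h0 (fun k hk' => hk k (by omega))
        obtain ⟨s, rfl⟩ : ∃ s, t = s + 1 := ⟨t - 1, by omega⟩
        have h2 := hgr s (hk (s + 1) (by omega))
        have h3 : ((s : ℤ) + 2) * ((CC R).card : ℤ) ≤ 2 * ((DD R (s + 1)).card : ℤ) := by
          exact_mod_cast h2
        push_cast at h1 ⊢
        nlinarith
  have ha : (4 : ℤ) * (M : ℤ) + 1 ≤ ((CC R).card : ℤ) := by
    rw [hCC]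
    push_cast
    omega
  have huM : (2 : ℤ) * M < (U.card : ℤ) := by
    have : 2 * M < U.card := by omega
    exact_mod_cast this
  have hQ1 : ∀ t, ((∑ x ∈ DD R t, itc U x : ℕ) : ℤ) ≤ (U.card : ℤ) * U.card := by
    intro t
    exact_mod_cast sum_itc_le U (DD R t)
  have hQ2 : ∀ t, 2 * ((∑ x ∈ DD R t, itc U x : ℕ) : ℤ) ≤ (U.card : ℤ) * Hf.card := by
    intro t
    exact_mod_cast sum_itc_half (H := H) (hDH t) hU
  by_cases hex : ∃ k, k * M ≤ U.card ∧ (DD R k).card = Hf.card
  · classical
    set j := Nat.find hex with hj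
    have hjs : j * M ≤ U.card ∧ (DD R j).card = Hf.card := Nat.find_spec hex
    have hjmin : ∀ k < j, (DD R k).card < Hf.card := by
      intro k hk
      have h1 := Nat.find_min hex hk
      have h2 := hDHf k
      have h3 : k * M ≤ U.card := (Nat.mul_le_mul_right _ (le_of_lt hk)).trans hjs.1
      rcases Nat.lt_or_eq_of_le h2 with h4 | h4
      · exact h4
      · exact absurd ⟨h3, h4⟩ h1
    have hj1 : 1 ≤ j := by
      by_contra h0
      have : j = 0 := by omega
      have h1 := hjs.2
      rw [this, hN0] at h1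
      omega
    have hlay := layer hM j
    rw [hjs.2] at hlay
    exact arith2 (a := ((CC R).card : ℤ)) (M := (M : ℤ)) (j := (j : ℤ)) (u := (U.card : ℤ))
      (h := (Hf.card : ℤ)) ha (by positivity) (by exact_mod_cast hj1) huM
      (by exact_mod_cast hjs.1) (by exact_mod_cast (by omega : 0 < Hf.card)) (hQ1 j) (hQ2 j)
      (hsum j hj1 hjmin) hlay
  · push Not at hex
    have hlt : ∀ k, k * M ≤ U.card → (DD R k).card < Hf.card := by
      intro k hk
      exact lt_of_le_of_ne (hDHf k) (hex k hk)
    rcases Nat.eq_zero_or_pos M with hM0 | hMpos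
    · have h1 := hlt (Hf.card + 1) (by rw [hM0]; simp)
      have h2 := hgr Hf.card h1
      have h3 : (Hf.card + 2) * 1 ≤ (Hf.card + 2) * (CC R).card := Nat.mul_le_mul_left _ (by omega)
      have h4 : (Hf.card + 2) * 3 ≤ (Hf.card + 2) * (CC R).card := Nat.mul_le_mul_left _ (by omega)
      omega
    · set t := U.card / M with ht
      have ht2 : 2 ≤ t := by
        rw [ht, Nat.le_div_iff_mul_le hMpos]
        omega
      have htM : t * M ≤ U.card := Nat.div_mul_le_self _ _
      have hdm := Nat.div_add_mod U.card M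
      have hml := Nat.mod_lt U.card hMpos
      rw [← ht] at hdm
      have hkt : ∀ k < t, (DD R k).card < Hf.card := by
        intro k hk
        exact hlt k ((Nat.mul_le_mul_right _ (le_of_lt hk)).trans htM)
      obtain ⟨s, hs⟩ : ∃ s, t = s + 1 := ⟨t - 1, by omega⟩
      have hNt : ((t : ℤ) + 1) * ((CC R).card : ℤ) ≤ 2 * ((DD R t).card : ℤ) := by
        have h1 := hgr s (by rw [← hs]; exact hlt t htM)
        rw [← hs] at h1
        have h2 : (t + 1) * (CC R).card ≤ 2 * (DD R t).card := by
          have : s + 2 = t + 1 := by omega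
          rw [this] at h1; exact h1
        exact_mod_cast h2
      have hlay := layer hM t
      refine arith1 (a := ((CC R).card : ℤ)) (M := (M : ℤ)) (t := (t : ℤ)) (u := (U.card : ℤ))
        (v := ((U.card % M : ℕ) : ℤ)) ha (by exact_mod_cast hMpos) (by exact_mod_cast ht2)
        ?_ (by positivity) (by exact_mod_cast (le_of_lt hml)) (hQ1 t) hNt
        (hsum t (by omega) hkt) ?_
      · have : U.card = t * M + U.card % M := by
          rw [mul_comm t M]; exact hdm.symm
        exact_mod_cast this
      · have h1 : (U.card : ℤ) - t * M = ((U.card % M : ℕ) : ℤ) := by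
          have : (U.card : ℤ) = M * t + ((U.card % M : ℕ) : ℤ) := by exact_mod_cast hdm.symm
          linarith
        rw [h1] at hlay
        exact hlay

end Pool.Agent.helper43.Rho
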