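import Pool.Agent.helper43.Rho.Dyn
import Pool.Agent.helper43.Rho.Lower

/-!
The greedy process with decreasing generated subgroups.
-/

open Finset

set_option linter.unusedSectionVars false

namespace Pool.Agent.helper43.Rho

variable {G : Type*} [AddCommGroup G] [DecidableEq G]

open Classical in
/-- the elements of a subgroup as a finset -/
noncomputable def sf [Fintype G] (H : AddSubgroup G) : Finset G :=
  Finset.univ.filter (fun z => z ∈ H)

theorem mem_sf [Fintype G] {H : AddSubgroup G} (x : G) : x ∈ sf H ↔ x ∈ H := by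
  classical
  simp [sf]

theorem card_sf [Fintype G] (H : AddSubgroup G) : (sf H).card = Nat.card H := by
  have h : ((sf H : Finset G) : Set G) = (H : Set G) := by
    ext x
    rw [Finset.mem_coe, mem_sf]; rfl
  have h2 : Nat.card ((sf H : Finset G) : Set G) = (sf H).card := by simp
  rw [← h2, h]
  rfl

theorem half_card [Fintype G] {H' H : AddSubgroup G} (h : H' < H) :
    2 * (sf H').card ≤ (sf H).card := by
  obtain ⟨hle, z, hz, hz'⟩ := SetLike.lt_iff_le_and_exists.1 h
  have hsub : sf H' ∪ tr (sf H') z ⊆ sf H := by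
    apply Finset.union_subset
    · intro y hy
      rw [mem_sf] at hy ⊢
      exact hle hy
    · intro y hy
      rw [mem_tr, mem_sf] at hy
      rw [mem_sf]
      have := H.add_mem (hle hy) hz
      simpa using this
  have hdisj : Disjoint (sf H') (tr (sf H') z) := by
    rw [Finset.disjoint_left]
    intro y hy hy2
    rw [mem_sf] at hy
    rw [mem_tr, mem_sf] at hy2
    apply hz'
    have := H'.sub_mem hy hy2
    simpa using this
  have h1 := Finset.card_le_card hsub
  rw [Finset.card_union_of_disjoint hdisj, card_tr] at h1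
  omega

/-- The greedy process: for suitable parameters a subset `B` of `A` has subset sums that are
periodic modulo the subgroup generated by the remaining elements, of which more than `ρ`
remain. -/
theorem dynamic [Fintype G] {A : Finset G} (hA : Asym A) {m n ρ J I K0 : ℕ}
    (hm : A.card = m) (hn : Fintype.card G = n)
    (hJ : (m + 1) * 2 ^ J < 2 * 3 ^ J) (hI : 1 ≤ I) (hI2 : m + 1 < 2 ^ (I + 1))
    (hK : n < 2 ^ (K0 + 1) * (2 * ρ + 1)) (hρ : ρ ≤ m)
    (hfin : 4 * n + ρ * (ρ + 3) < (m - (K0 + 1) * (J + I)) * (m - (K0 + 1) * (J + I) + 3)) :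
    ∃ B ⊆ A, ρ < (A \ B).card ∧
      ∀ s ∈ SS B, ∀ k ∈ AddSubgroup.closure ((A \ B : Finset G) : Set G), s + k ∈ SS B := by
  classical
  by_contra hcon
  push Not at hcon
  have key : ∀ t ≤ m - ρ, ∃ B ⊆ A, B.card = t ∧ ∃ j K e : ℕ, j ≤ J + I ∧ e ≤ K * (J + I) + j ∧
      e ≤ t ∧ 2 ^ K * (sf (AddSubgroup.closure ((A \ B : Finset G) : Set G))).card ≤ n ∧
      Prog (SS B) (AddSubgroup.closure ((A \ B : Finset G) : Set G))
        (sf (AddSubgroup.closure ((A \ B : Finset G) : Set G))).card m J j ∧
      (m - e) * (m - e + 3) ≤ 4 * (SS B).card + (m - t) * (m - t + 3) := by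
    intro t
    induction t with
    | zero =>
      intro _
      refine ⟨∅, Finset.empty_subset _, by simp, 0, 0, 0, by omega, by omega, le_rfl, ?_, ?_, ?_⟩
      · rw [pow_zero, one_mul, ← hn]
        exact Finset.card_le_univ _
      · exact Prog_zero _ _ _ _ _
      · omega
    | succ t ih =>
      intro ht
      obtain ⟨B, hBA, hBt, j, K, e, hj, he, het, hKn, hP, hgrow⟩ := ih (by omega)
      set H := AddSubgroup.closure ((A \ B : Finset G) : Set G) with hH
      have hHf : ∀ x, x ∈ sf H ↔ x ∈ H := fun x => mem_sf x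
      have hRc : (A \ B).card = m - t := by
        rw [Finset.card_sdiff_of_subset hBA]; omega
      have hRas : Asym (A \ B) := hA.subset Finset.sdiff_subset
      have hRH : ∀ x ∈ A \ B, x ∈ H := fun x hx => AddSubgroup.subset_closure hx
      have hRne : (A \ B).Nonempty := by
        rw [← Finset.card_pos]; omega
      have hnonper : mino (SS B) H (sf H).card ≠ ∅ := by
        intro hempty
        obtain ⟨s, hs, k, hk, hsk⟩ := hcon B hBA (by omega)
        exact hsk (periodic_of_mino_empty hempty s hs k hk)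
      have hjlt : j < J + I := by
        rcases Nat.lt_or_eq_of_le hj with h | h
        · exact h
        · exfalso
          rw [h] at hP
          exact hnonper (Prog_end hHf hI hI2 hP)
      have hUne : (mino (SS B) H (sf H).card).Nonempty := Finset.nonempty_iff_ne_empty.2 hnonper
      -- common continuation
      have cont : ∀ x ∈ A \ B, ∀ j' e' : ℕ, j' ≤ J + I → e' ≤ K * (J + I) + j' → e' ≤ t + 1 →
          Prog (SS B ∪ (SS B).image (fun s => s + x)) H (sf H).card m J j' →
          (m - e') * (m - e' + 3) ≤ 4 * ((SS B).card + lam (SS B) x) +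
            (m - (t + 1)) * (m - (t + 1) + 3) →
          ∃ B' ⊆ A, B'.card = t + 1 ∧ ∃ j K e : ℕ, j ≤ J + I ∧ e ≤ K * (J + I) + j ∧
            e ≤ t + 1 ∧
            2 ^ K * (sf (AddSubgroup.closure ((A \ B' : Finset G) : Set G))).card ≤ n ∧
            Prog (SS B') (AddSubgroup.closure ((A \ B' : Finset G) : Set G))
              (sf (AddSubgroup.closure ((A \ B' : Finset G) : Set G))).card m J j ∧
            (m - e) * (m - e + 3) ≤ 4 * (SS B').card + (m - (t + 1)) * (m - (t + 1) + 3) := by
        intro x hx j' e' hj' he' he't hP' hgrow'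
        rw [Finset.mem_sdiff] at hx
        have hB'A : insert x B ⊆ A := Finset.insert_subset hx.1 hBA
        have hB'c : (insert x B).card = t + 1 := by
          rw [Finset.card_insert_of_notMem hx.2]; omega
        have hSS : SS (insert x B) = SS B ∪ (SS B).image (fun s => s + x) := SS_insert hx.2
        have hSSc : (SS (insert x B)).card = (SS B).card + lam (SS B) x := card_SS_insert hx.2
        have hle : AddSubgroup.closure ((A \ insert x B : Finset G) : Set G) ≤ H := by
          apply AddSubgroup.closure_mono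
          intro y hy
          rw [Finset.mem_coe, Finset.mem_sdiff, Finset.mem_insert, not_or] at hy
          rw [Finset.mem_coe, Finset.mem_sdiff]
          exact ⟨hy.1, hy.2.2⟩
        refine ⟨insert x B, hB'A, hB'c, ?_⟩
        rcases eq_or_lt_of_le hle with heq | hlt
        · refine ⟨j', K, e', hj', he', he't, ?_, ?_, ?_⟩
          · rw [heq]; exact hKn
          · rw [heq, hSS]; exact hP'
          · rw [hSSc]; exact hgrow'
        · refine ⟨0, K + 1, e', by omega, ?_, he't, ?_, Prog_zero _ _ _ _ _, ?_⟩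
          · have : (K + 1) * (J + I) = K * (J + I) + (J + I) := by ring
            omega
          · have h1 := half_card hlt
            calc 2 ^ (K + 1) * (sf (AddSubgroup.closure ((A \ insert x B : Finset G) : Set G))).card
                = 2 ^ K * (2 * (sf (AddSubgroup.closure
                    ((A \ insert x B : Finset G) : Set G))).card) := by ring
              _ ≤ 2 ^ K * (sf H).card := Nat.mul_le_mul_left _ h1
              _ ≤ n := hKn
          · rw [hSSc]; exact hgrow'
      obtain ⟨r', hr'⟩ : ∃ r', m - t = r' + 1 := ⟨m - t - 1, by omega⟩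
      have hr'2 : m - (t + 1) = r' := by omega
      by_cases hexc : (mino (SS B) H (sf H).card).card ≤ (A \ B).card
      · obtain ⟨x, hx, hall⟩ := avg_all hRas hRH hUne hexc
        refine cont x hx (j + 1) (e + 1) (by omega) (by omega) (by omega) ?_ ?_
        · exact Prog_exc hHf hJ hP (hRH x hx) (by omega) hall
        · rw [hr'2]
          rw [hr'] at hgrow
          obtain ⟨q, hq⟩ : ∃ q, m - e = q + 1 := ⟨m - e - 1, by omega⟩
          have hq2 : m - (e + 1) = q := by omega
          have hqr : r' ≤ q := by omega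
          rw [hq2]
          rw [hq] at hgrow
          nlinarith
      · push Not at hexc
        have hUhalf : ∀ g ∈ mino (SS B) H (sf H).card,
            2 * (co (mino (SS B) H (sf H).card) H g).card ≤ (sf H).card := by
          intro g _
          rw [card_co_mino hHf]
          split_ifs with h
          · exact h
          · omega
        obtain ⟨x, hx, hl⟩ := grow2 hHf hH.symm hRas hRne hUhalf hexc
        rw [← lam_mino (hRH x hx)] at hl
        refine cont x hx j e (by omega) he (by omega) ?_ ?_
        · exact Prog_mono hHf hP (hRH x hx)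
        · rw [hr'2]
          rw [hr'] at hgrow
          rw [hRc, hr'] at hl
          nlinarith
  obtain ⟨B, hBA, hBt, j, K, e, hj, he, het, hKn, hP, hgrow⟩ := key (m - ρ) le_rfl
  set H := AddSubgroup.closure ((A \ B : Finset G) : Set G) with hH
  have hRc : (A \ B).card = ρ := by
    rw [Finset.card_sdiff_of_subset hBA]; omega
  have hRas : Asym (A \ B) := hA.subset Finset.sdiff_subset
  have hHcard : 2 * ρ + 1 ≤ (sf H).card := by
    rw [← hRc, ← card_CC hRas]
    apply Finset.card_le_card
    intro c hc
    rw [mem_sf]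
    unfold CC at hc
    rw [Finset.mem_insert, Finset.mem_union, Finset.mem_image] at hc
    rcases hc with rfl | hx | ⟨y, hy, rfl⟩
    · exact H.zero_mem
    · exact AddSubgroup.subset_closure hx
    · exact H.neg_mem (AddSubgroup.subset_closure hy)
  have hKK : K ≤ K0 := by
    by_contra hlt
    have h1 : 2 ^ (K0 + 1) * (2 * ρ + 1) ≤ 2 ^ K * (sf H).card :=
      Nat.mul_le_mul (Nat.pow_le_pow_right (by norm_num) (by omega)) hHcard
    omega
  have heE : e ≤ (K0 + 1) * (J + I) := by
    have h1 : K * (J + I) ≤ K0 * (J + I) := Nat.mul_le_mul_right _ hKK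
    have h2 : (K0 + 1) * (J + I) = K0 * (J + I) + (J + I) := by ring
    omega
  have hSn : (SS B).card ≤ n := by
    rw [← hn]; exact Finset.card_le_univ _
  have hmρ : m - (m - ρ) = ρ := by omega
  rw [hmρ] at hgrow
  have hmono : (m - (K0 + 1) * (J + I)) * (m - (K0 + 1) * (J + I) + 3) ≤
      (m - e) * (m - e + 3) := Nat.mul_le_mul (by omega) (by omega)
  omega

/-- The lower bound with parameters. -/
theorem lower2 [Finite G] {A : Finset G} (hA : Asym A) {m ρ J I K0 : ℕ}
    (hm : A.card = m)
    (hJ : (m + 1) * 2 ^ J < 2 * 3 ^ J) (hI : 1 ≤ I) (hI2 : m + 1 < 2 ^ (I + 1))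
    (hK : Nat.card G < 2 ^ (K0 + 1) * (2 * ρ + 1)) (hρ1 : 1 ≤ ρ) (hρ : ρ ≤ m)
    (hfin : 4 * Nat.card G + ρ * (ρ + 3) <
      (m - (K0 + 1) * (J + I)) * (m - (K0 + 1) * (J + I) + 3))
    (hend1 : Nat.card G < (2 * ρ + 3) * (m - ρ)) :
    ∃ K : AddSubgroup G, m < Nat.card K ∧
      Nat.card K * (1 + (m - (Nat.card K - 1) / 2)) ≤ (SigmaStar A).card := by
  classical
  have _ := Fintype.ofFinite G
  obtain ⟨B, hBA, hBρ, hper⟩ := dynamic (n := Nat.card G) hA hm Nat.card_eq_fintype_card.symm
    hJ hI hI2 hK hρ hfin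
  set H := AddSubgroup.closure ((A \ B : Finset G) : Set G) with hH
  have hRas : Asym (A \ B) := hA.subset Finset.sdiff_subset
  have hRH : ∀ x ∈ A \ B, x ∈ H := fun x hx => AddSubgroup.subset_closure hx
  have hHcard : 2 * (A \ B).card + 1 ≤ Nat.card H := asym_card_subgroup hRas H hRH
  -- all sums of `A` are sums of `B`
  have hSB : ∀ x ∈ SS A, x ∈ SS B := by
    intro x hx
    rw [mem_SS] at hx
    obtain ⟨T, hT, rfl⟩ := hx
    have h1 : ∑ b ∈ T, b = ∑ b ∈ T ∩ B, b + ∑ b ∈ T \ B, b := by
      rw [add_comm, ← Finset.sum_union (Finset.disjoint_sdiff_inter T B)]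
      congr 1
      exact (Finset.sdiff_union_inter T B).symm
    rw [h1]
    apply hper
    · exact mem_SS.2 ⟨T ∩ B, Finset.inter_subset_right, rfl⟩
    · apply AddSubgroup.sum_mem
      intro b hb
      rw [Finset.mem_sdiff] at hb
      exact hRH b (Finset.mem_sdiff.2 ⟨hT hb.1, hb.2⟩)
  have hSAB : SS A = SS B := Finset.Subset.antisymm hSB (SS_mono hBA)
  -- the empty sum is also a nonempty sum
  have hstar : SigmaStar A = SS A := by
    ext x
    rw [mem_SigmaStar, mem_SS]
    constructor
    · rintro ⟨C, h1, _, h3⟩; exact ⟨C, h1, h3⟩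
    · rintro ⟨C, h1, rfl⟩
      rcases C.eq_empty_or_nonempty with rfl | hne
      · obtain ⟨a, ha⟩ : (A \ B).Nonempty := by
          rw [← Finset.card_pos]; omega
        have h2 := hper 0 (zero_mem_SS B) (-a) (H.neg_mem (hRH a ha))
        rw [zero_add, mem_SS] at h2
        obtain ⟨T, hT, hTa⟩ := h2
        rw [Finset.mem_sdiff] at ha
        have haT : a ∉ T := fun h => ha.2 (hT h)
        refine ⟨insert a T, Finset.insert_subset ha.1 (hT.trans hBA),
          Finset.insert_nonempty _ _, ?_⟩
        rw [Finset.sum_insert haT, hTa]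
        simp
      · exact ⟨C, h1, hne, rfl⟩
  set K := stab (SS A) with hK'
  have hHK : H ≤ K := by
    intro k hk
    apply mem_stab_of
    intro s hs
    rw [hSAB] at hs ⊢
    exact hper s hs k hk
  have hcard : Nat.card H ≤ Nat.card K := Nat.card_mono (Set.toFinite _) hHK
  have h1 := card_periodic (K := K) (S := SS A) (fun s hs k hk => (mem_stab_iff.1 hk s).2 hs)
  have h2 : (outs A K).card + 1 ≤
      ((SS (outs A K)).image (fun x => (QuotientAddGroup.mk x : G ⧸ K))).card :=
    coset_count (A := A) (T := outs A K) (fun y hy => (mem_outs.1 hy).1)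
      (fun y hy => (mem_outs.1 hy).2)
  have h3 : ((SS (outs A K)).image (fun x => (QuotientAddGroup.mk x : G ⧸ K))).card ≤
      ((SS A).image (fun x => (QuotientAddGroup.mk x : G ⧸ K))).card := by
    apply Finset.card_le_card
    apply Finset.image_subset_image
    exact SS_mono (fun y hy => (mem_outs.1 hy).1)
  have h4 := card_ins_add_outs A K
  have h5 := two_card_ins hA K
  have h6 : 1 + (m - (Nat.card K - 1) / 2) ≤
      ((SS A).image (fun x => (QuotientAddGroup.mk x : G ⧸ K))).card := by omega
  have h7 : Nat.card K * (1 + (m - (Nat.card K - 1) / 2)) ≤ (SS A).card :=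
    (Nat.mul_le_mul_left _ h6).trans h1
  have hSn : (SS A).card ≤ Nat.card G := by
    rw [Nat.card_eq_fintype_card]; exact Finset.card_le_univ _
  refine ⟨K, ?_, by rw [hstar]; exact h7⟩
  -- `K` has more than `m` elements
  by_contra hKm
  push Not at hKm
  set κ := Nat.card K with hκ
  have hκ1 : 2 * ρ + 3 ≤ κ := by omega
  have h8 : κ * (2 * m - κ + 3) ≤ 2 * Nat.card G := by
    have e1 : 2 * m - κ + 3 ≤ 2 * (1 + (m - (κ - 1) / 2)) := by omega
    calc κ * (2 * m - κ + 3) ≤ κ * (2 * (1 + (m - (κ - 1) / 2))) := Nat.mul_le_mul_left _ e1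
      _ = 2 * (κ * (1 + (m - (κ - 1) / 2))) := by ring
      _ ≤ 2 * Nat.card G := by omega
  obtain ⟨c, hc⟩ : ∃ c, m = κ + c := ⟨m - κ, by omega⟩
  obtain ⟨d, hd⟩ : ∃ d, κ = 2 * ρ + 3 + d := ⟨κ - (2 * ρ + 3), by omega⟩
  have e2 : 2 * m - κ + 3 = κ + 2 * c + 3 := by omega
  have e3 : m - ρ = ρ + 3 + d + c := by omega
  rw [e2] at h8
  rw [e3] at hend1
  have e4 : κ * (κ + 2 * c + 3) = 2 * ((2 * ρ + 3) * (ρ + 3 + d + c)) + d * (3 + d + 2 * c) := by
    rw [hd]; ring
  omega

end Pool.Agent.helper43.Rho
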